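import Pool.Agent.Helper89.G3.Defs

/-!
# G3-COV: change of variables `y = c + a w`

`cov` : the real determinant of `w ↦ a w` on `ℂ` is `‖a‖^2`
(`integral_image_eq_integral_abs_det_fderiv_smul` as in `Helper90/G2/Area.lean`, or the scaling of the
Haar measure). `J_scale` : `‖c + a w - (c + a z)‖ = ‖a‖ ‖w - z‖`, the argument of the template is
unchanged. `vh_scale` : `ζ ↦ a ζ` is a bijection of the index set of the infimum, and
`Real.mul_iInf_of_nonneg`.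
-/

set_option autoImplicit false
set_option linter.unusedVariables false

namespace Pool.Agent.Helper89.G3

open MeasureTheory Set
open scoped Real

/-- the determinant of multiplication by a complex number -/
theorem Cov_det (c : ℂ) : (c • (1 : ℂ →L[ℝ] ℂ)).det = ‖c‖ ^ 2 := by
  have h1 : ((c • (1 : ℂ →L[ℝ] ℂ) : ℂ →L[ℝ] ℂ) : ℂ →ₗ[ℝ] ℂ) =
      ((c • (1 : ℂ →ₗ[ℂ] ℂ) : ℂ →ₗ[ℂ] ℂ)).restrictScalars ℝ := by
    ext x <;> simp
  rw [ContinuousLinearMap.det, h1, LinearMap.det_restrictScalars]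
  simp [Algebra.norm_complex_apply, Complex.normSq_eq_norm_sq]

theorem Cov_preimage {a : ℂ} (ha : a ≠ 0) (c : ℂ) (S : Set ℂ) :
    (fun w : ℂ => c + a * w) ⁻¹' S = (fun y : ℂ => (y - c) / a) '' S := by
  ext w
  simp only [mem_preimage, mem_image]
  constructor
  · intro h
    refine ⟨c + a * w, h, ?_⟩
    field_simp
    ring
  · rintro ⟨y, hy, rfl⟩
    have : c + a * ((y - c) / a) = y := by
      field_simp
      ring
    rw [this]
    exact hy

theorem Cov_image {a : ℂ} (ha : a ≠ 0) (c : ℂ) (S : Set ℂ) :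
    (fun w : ℂ => c + a * w) '' ((fun w : ℂ => c + a * w) ⁻¹' S) = S := by
  apply image_preimage_eq
  intro y
  refine ⟨(y - c) / a, ?_⟩
  show c + a * ((y - c) / a) = y
  field_simp
  ring

theorem Cov_meas (a c : ℂ) {S : Set ℂ} (hS : MeasurableSet S) :
    MeasurableSet ((fun w : ℂ => c + a * w) ⁻¹' S) := by
  have : Measurable (fun w : ℂ => c + a * w) := by fun_prop
  exact this hS

theorem cov {a : ℂ} (ha : a ≠ 0) (c : ℂ) {S : Set ℂ} (hS : MeasurableSet S) (f : ℂ → ℝ) :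
    ∫ y in S, f y = ‖a‖ ^ 2 * ∫ w in (fun w : ℂ => c + a * w) ⁻¹' S, f (c + a * w) := by
  have hd : ∀ x ∈ (fun w : ℂ => c + a * w) ⁻¹' S,
      HasFDerivWithinAt (fun w : ℂ => c + a * w) (a • (1 : ℂ →L[ℝ] ℂ))
        ((fun w : ℂ => c + a * w) ⁻¹' S) x := by
    intro x _
    have h1 : HasFDerivAt (fun w : ℂ => a • w) (a • (1 : ℂ →L[ℝ] ℂ)) x :=
      (hasFDerivAt_id x).const_smul a
    exact (h1.const_add c).hasFDerivWithinAt
  have hi : InjOn (fun w : ℂ => c + a * w) ((fun w : ℂ => c + a * w) ⁻¹' S) := by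
    intro x _ y _ hxy
    exact mul_left_cancel₀ ha (add_left_cancel hxy)
  have h := integral_image_eq_integral_abs_det_fderiv_smul volume (Cov_meas a c hS) hd hi f
  rw [Cov_image ha] at h
  rw [h]
  simp_rw [Cov_det, abs_of_nonneg (sq_nonneg ‖a‖), smul_eq_mul]
  rw [integral_const_mul]

theorem cov_fin {a : ℂ} (ha : a ≠ 0) (c : ℂ) {S : Set ℂ} (hS : MeasurableSet S)
    (hv : volume S < ⊤) : MeasurableSet ((fun w : ℂ => c + a * w) ⁻¹' S) ∧
      volume ((fun w : ℂ => c + a * w) ⁻¹' S) < ⊤ := by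
  refine ⟨Cov_meas a c hS, ?_⟩
  rw [Cov_preimage ha c S]
  have hd : ∀ x ∈ S, HasFDerivWithinAt (fun y : ℂ => (y - c) / a) (a⁻¹ • (1 : ℂ →L[ℝ] ℂ)) S x := by
    intro x _
    have h1 : HasFDerivAt (fun w : ℂ => a⁻¹ • w) (a⁻¹ • (1 : ℂ →L[ℝ] ℂ)) (x - c) :=
      (hasFDerivAt_id (x - c)).const_smul a⁻¹
    have h2 : HasFDerivAt (fun w : ℂ => w - c) (1 : ℂ →L[ℝ] ℂ) x := (hasFDerivAt_id x).sub_const c
    have h3 := h1.comp x h2
    have e1 : (fun w : ℂ => a⁻¹ • w) ∘ (fun w : ℂ => w - c) = fun y : ℂ => (y - c) / a := by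
      funext y
      simp only [Function.comp_apply, smul_eq_mul]
      rw [div_eq_inv_mul]
    rw [e1] at h3
    have e2 : (a⁻¹ • (1 : ℂ →L[ℝ] ℂ)).comp (1 : ℂ →L[ℝ] ℂ) = a⁻¹ • (1 : ℂ →L[ℝ] ℂ) := by
      ext <;> simp
    rw [e2] at h3
    exact h3.hasFDerivWithinAt
  have hi : InjOn (fun y : ℂ => (y - c) / a) S := by
    intro x _ y _ hxy
    have h4 : (x - c) / a = (y - c) / a := hxy
    rw [div_left_inj' ha] at h4
    exact sub_left_injective h4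
  rw [← lintegral_abs_det_fderiv_eq_addHaar_image volume hS hd hi]
  simp_rw [Cov_det]
  rw [lintegral_const, Measure.restrict_apply_univ]
  exact ENNReal.mul_lt_top ENNReal.ofReal_lt_top hv

theorem J_scale {k : ℂ → ℝ} {δ b : ℝ} {a : ℂ} (ha : a ≠ 0) {Q : Set ℂ} (hQ : MeasurableSet Q)
    (p z : ℂ) {ζ : ℂ} (hζ : ζ ≠ 0) :
    J k δ b Q (p + a * z) (a * ζ) =
      ‖a‖ ^ (2 - δ) * J k δ b ((fun w : ℂ => p + a * w) ⁻¹' Q) z ζ := by
  unfold J
  rw [cov ha p hQ]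
  have h1 : ∀ w : ℂ, ‖p + a * w - (p + a * z)‖ ^ (-δ) *
      (1 - δ * b * k ((p + a * w - (p + a * z)) / (a * ζ))) =
      ‖a‖ ^ (-δ) * (‖w - z‖ ^ (-δ) * (1 - δ * b * k ((w - z) / ζ))) := by
    intro w
    have e1 : p + a * w - (p + a * z) = a * (w - z) := by ring
    rw [e1, norm_mul, Real.mul_rpow (norm_nonneg _) (norm_nonneg _), mul_div_mul_left _ _ ha]
    ring
  simp_rw [h1]
  rw [integral_const_mul, ← mul_assoc]
  congr 1
  have ha0 : 0 < ‖a‖ := norm_pos_iff.2 ha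
  rw [← Real.rpow_natCast, ← Real.rpow_add ha0]
  congr 1

theorem vh_scale {k : ℂ → ℝ} {δ b : ℝ} {a : ℂ} (ha : a ≠ 0) {Q : Set ℂ} (hQ : MeasurableSet Q)
    (p z : ℂ) :
    Vh k δ b Q (p + a * z) =
      ‖a‖ ^ (2 - δ) * Vh k δ b ((fun w : ℂ => p + a * w) ⁻¹' Q) z := by
  unfold Vh
  rw [Real.mul_iInf_of_nonneg (Real.rpow_nonneg (norm_nonneg _) _)]
  symm
  refine Function.Surjective.iInf_congr
    (fun ζ : {ζ : ℂ // ζ ≠ 0} => (⟨a * ζ.1, mul_ne_zero ha ζ.2⟩ : {ζ : ℂ // ζ ≠ 0})) ?_ ?_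
  · intro ζ
    refine ⟨⟨ζ.1 / a, div_ne_zero ζ.2 ha⟩, ?_⟩
    apply Subtype.ext
    show a * (ζ.1 / a) = ζ.1
    field_simp
  · intro ζ
    exact J_scale ha hQ p z ζ.2

end Pool.Agent.Helper89.G3
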