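import Pool.Agent.Helper90.G2.Pot

/-!
# Project G3 (MP_16b0ee_an), part II: the strict functional, definitions

`J k δ b Q p ζ` is the integral of `|y - p|^(-δ) (1 - δ b k ((y - p) / ζ))` over `Q` (`k` is the template,
`ζ` its scale and direction, `b` a small constant), `Vh` its infimum over `ζ ≠ 0`.

Normalised situation: `p = 0`, the point moves to the real number `m`; reference disk
`Dk = B(1/2, 1/2) = {Re (1/y) > 1}`; weights `W = ‖y‖^(-δ)`, `W' = ‖y - m‖^(-δ)`;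
`Xl m y = log (|y| / |y - m|)` (close to `m Re (1/y)`); `Ds δ m Q` is the `W'`-measure of the symmetric
difference of `Q` and `Dk`; `Om` is a common bound of all error densities.

`Tp` : the template. `good` : when the template is in the extremal position the move of the point
increases the template term at a definite rate; `bad` : for the reference disk all other positions are
worse than `ζ = 1/2`.
-/

set_option autoImplicit false

namespace Pool.Agent.Helper89.G3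

open MeasureTheory Set
open scoped Real

/-- the functional with template `k` in position `ζ` -/
noncomputable def J (k : ℂ → ℝ) (δ b : ℝ) (Q : Set ℂ) (p ζ : ℂ) : ℝ :=
  ∫ y in Q, ‖y - p‖ ^ (-δ) * (1 - δ * b * k ((y - p) / ζ))

/-- the strict functional -/
noncomputable def Vh (k : ℂ → ℝ) (δ b : ℝ) (Q : Set ℂ) (p : ℂ) : ℝ :=
  ⨅ ζ : {ζ : ℂ // ζ ≠ 0}, J k δ b Q p ζ

/-- the reference disk -/
def Dk : Set ℂ := Metric.ball (1 / 2 : ℂ) (1 / 2)

/-- weighted measure of the symmetric difference of `Q` and the reference disk -/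
noncomputable def Ds (δ m : ℝ) (Q : Set ℂ) : ℝ :=
  (∫ y in Q \ Dk, ‖y - (m : ℂ)‖ ^ (-δ)) + ∫ y in Dk \ Q, ‖y - (m : ℂ)‖ ^ (-δ)

/-- the logarithmic ratio -/
noncomputable def Xl (m : ℝ) (y : ℂ) : ℝ := Real.log (‖y‖ / ‖y - (m : ℂ)‖)

/-- the common bound of the error densities -/
noncomputable def Om (δ m : ℝ) (y : ℂ) : ℝ :=
  (‖y‖ ^ (-δ) + ‖y - (m : ℂ)‖ ^ (-δ)) * (1 / ‖y‖ + 1 / ‖y - (m : ℂ)‖ + 1)

/-- the layer around the reference circle, and a small disk around `0` -/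
def Ly (τ r : ℝ) : Set ℂ := {y : ℂ | |(1 / y).re - 1| < τ} ∪ Metric.ball 0 r

/-- templates -/
structure Tp (k : ℂ → ℝ) (K L c₁ c₂ r m₁ : ℝ) : Prop where
  bd : ∀ w : ℂ, |k w| ≤ K
  lip : ∀ w w' : ℂ, |k w - k w'| ≤ L * ‖w - w'‖
  far : ∀ w : ℂ, 4 ≤ ‖w‖ → k w = k 4
  bad : ∀ ζ : ℂ, ζ ≠ 0 → r ≤ ‖1 / (2 * ζ) - 1‖ →
    (∫ y in Dk, k (y / ζ)) + c₁ ≤ ∫ y in Dk, k (2 * y)
  good : ∀ ζ : ℂ, ζ ≠ 0 → ‖1 / (2 * ζ) - 1‖ ≤ r → ∀ m : ℝ, 0 < m → m ≤ m₁ →
    c₂ * m ≤ (∫ y in Dk, k ((y - m) / ζ)) - ∫ y in Dk, k (y / ζ)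

end Pool.Agent.Helper89.G3
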