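import Pool.Agent.Helper89.G3.Defs

/-!
# G3-LAYER: the layer around the reference circle has small weight

For `τ ≤ 1/2`, `{|Re (1/y) - 1| < τ}` is contained in the closed disk `B(1/(2(1-τ)), 1/(2(1-τ)))` minus the open disk
`B(1/(2(1+τ)), 1/(2(1+τ)))`, area `(π/4) ((1-τ)^(-2) - (1+τ)^(-2)) ≤ 8 τ`; the small disk has area
`π r²`. Then `Helper39.G2.weight_le` : weight at most `2π/(2-δ) ρ^(2-δ) ≤ 4 ρ` for area
`π ρ²`, `ρ ≤ 1`.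
-/

set_option autoImplicit false

namespace Pool.Agent.Helper89.G3

open MeasureTheory Set
open scoped Real

theorem mem_dk {y : ℂ} : y ∈ Dk ↔ 1 < (1 / y).re := by
  sorry

theorem ly_meas (τ r : ℝ) : MeasurableSet (Ly τ r) := by
  sorry

theorem layer {κ : ℝ} (hκ : 0 < κ) : ∃ τ r : ℝ, 0 < τ ∧ τ ≤ 1 / 2 ∧ 0 < r ∧ r ≤ 1 ∧
    volume (Ly τ r) < ⊤ ∧ ∀ δ m : ℝ, 0 < δ → δ ≤ 1 / 4 →
      ∫ y in Ly τ r, ‖y - (m : ℂ)‖ ^ (-δ) ≤ κ := by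
  sorry

end Pool.Agent.Helper89.G3
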