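import Pool.Agent.Helper89.G3.Defs

/-!
# G3-OMEGA: the error density

Near part: on `B(0,2)`, `Om ≤ C (|y|^(-5/4) + |y - m|^(-5/4))` (for `0 < t ≤ 3`, `t^(-δ)` and `t^(-δ) / t` are
`≤ C t^(-5/4)`, and `a b' + a' b ≤ a b + a' b'` type rearrangement or `t^(-δ) t'^(-1) ≤ t^(-5/4) + t'^(-5/4)`);
integrals by `Helper39.G2.weight_le`, `integrableOn_weight` with exponent `5/4`. Far part: for
`|y| ≥ 2`, `m ≤ 1/4`: `Om ≤ 9 |y - m|^(-δ)`, and `Q \ B(0,2) ⊆ Q \ Dk`.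
-/

set_option autoImplicit false

namespace Pool.Agent.Helper89.G3

open MeasureTheory Set
open scoped Real

theorem om_int {δ m : ℝ} (h0 : 0 < δ) (h1 : δ ≤ 1 / 4) (hm : 0 < m) (hm1 : m ≤ 1 / 4) {Q : Set ℂ}
    (hQ : MeasurableSet Q) (hv : volume Q < ⊤) : IntegrableOn (Om δ m) Q := by
  sorry

theorem om_nonneg (δ m : ℝ) (y : ℂ) : 0 ≤ Om δ m y := by
  sorry

theorem om_le : ∃ C : ℝ, 0 ≤ C ∧ ∀ δ m : ℝ, 0 < δ → δ ≤ 1 / 4 → 0 < m → m ≤ 1 / 4 →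
    ∀ Q : Set ℂ, MeasurableSet Q → volume Q < ⊤ →
      ∫ y in Q, Om δ m y ≤ C * (1 + Ds δ m Q) := by
  sorry

/-- the two weights have close masses, and are close to `1` on bounded sets -/
theorem w_one : ∃ C : ℝ, 0 ≤ C ∧ ∀ δ : ℝ, 0 < δ → δ ≤ 1 / 4 → ∀ z : ℂ, ‖z‖ ≤ 1 / 4 →
    ∫ y in Dk, |‖y - z‖ ^ (-δ) - 1| ≤ C * δ := by
  sorry

end Pool.Agent.Helper89.G3
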