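import Pool.Agent.Helper89.G3.Ptw
import Pool.Agent.Helper89.G3.Layer
import Pool.Agent.Helper89.G3.Omega
import Pool.Agent.Helper90.G2.Move

/-!
# G3-EXCESS: the excess of the logarithm, with a deficit when `Q` is not the reference disk

`exc_pos` : `Helper39.G2.excess_le` with `p = 0`, `q = m`, `s = m` and `two_rpow_bound`
(`Helper90/G2/Move.lean`): `2π/(2-δ) (m/2)^(2-δ) m^(-(1-δ))/(1-δ) ≤ (1 + 32 δ) π m / 4`.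
`exc_le` : drop the negative part. `exc_def` : layer with `κ/4`, constant `τ₀, r₀`;
`∫_Q W'(X-m) = ∫_Q W'(X-m)⁺ - ∫_Q W'(X-m)⁻ ≤ ∫_{Q ∪ Dk} W'(X-m)⁺ - ∫_{Dk \ Q} W'(X-m)⁺ -
∫_{Q \ Dk} W'(X-m)⁻`; outside the layer `ptw_pos` on `Dk \ Q`, `ptw_neg` on `Q \ Dk`, so the
last two terms are at least `(m τ₀/2) (Ds - 2 κ/4) ≥ (m τ₀/4) Ds`. Integrability: `W' |X| ≤ m Om`.
-/

set_option autoImplicit false

namespace Pool.Agent.Helper89.G3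

open MeasureTheory Set
open scoped Real

theorem exc_int {δ m : ℝ} (h0 : 0 < δ) (h1 : δ ≤ 1 / 4) (hm : 0 < m) (hm1 : m ≤ 1 / 4)
    {Q : Set ℂ} (hQ : MeasurableSet Q) (hv : volume Q < ⊤) :
    IntegrableOn (fun y : ℂ => ‖y - (m : ℂ)‖ ^ (-δ) * (Xl m y - m)) Q := by
  sorry

theorem exc_pos {δ m : ℝ} (h0 : 0 < δ) (h1 : δ ≤ 1 / 4) (hm : 0 < m) (hm1 : m ≤ 1 / 4)
    {Q : Set ℂ} (hQ : MeasurableSet Q) (hv : volume Q < ⊤) :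
    ∫ y in Q, ‖y - (m : ℂ)‖ ^ (-δ) * max (Xl m y - m) 0 ≤ (1 + 32 * δ) * (π * m / 4) := by
  sorry

theorem exc_le {δ m : ℝ} (h0 : 0 < δ) (h1 : δ ≤ 1 / 4) (hm : 0 < m) (hm1 : m ≤ 1 / 4)
    {Q : Set ℂ} (hQ : MeasurableSet Q) (hv : volume Q < ⊤) :
    ∫ y in Q, ‖y - (m : ℂ)‖ ^ (-δ) * (Xl m y - m) ≤ (1 + 32 * δ) * (π * m / 4) := by
  sorry

theorem exc_def {κ : ℝ} (hκ : 0 < κ) : ∃ τ m₂ : ℝ, 0 < τ ∧ 0 < m₂ ∧ m₂ ≤ 1 / 4 ∧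
    ∀ δ m : ℝ, 0 < δ → δ ≤ 1 / 4 → 0 < m → m ≤ m₂ → ∀ Q : Set ℂ, MeasurableSet Q →
      volume Q < ⊤ → κ ≤ Ds δ m Q →
      ∫ y in Q, ‖y - (m : ℂ)‖ ^ (-δ) * (Xl m y - m) ≤
        (1 + 32 * δ) * (π * m / 4) - τ * m * Ds δ m Q := by
  sorry

end Pool.Agent.Helper89.G3
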