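import Pool.Agent.Helper89.G3.PotH
import Pool.Agent.Helper17.G3.Key

/-!
# G3-VHKEY: from the key inequality to the normalised move inequality

The integral of `Phi` over `Q` is `J Q (2m) ζ - e^(δ m) J Q 0 ζ + ν (J Q 0 1 - J Q 0 ζ)`, so
`Vh Q (2m) ≤ J Q (2m) ζ ≤ e^(δ m) J Q 0 ζ + ν (J Q 0 ζ - Vh Q 0) + E`; choose `ζ` with
`J Q 0 ζ ≤ Vh Q 0 + η`, use `ν ≤ B`, and let `η → 0`.
-/

set_option autoImplicit false

namespace Pool.Agent.Helper89.G3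

open MeasureTheory Set
open scoped Real
open Pool.Agent.Helper17.G3 (Phi)

variable {k : ℂ → ℝ} {K δ b m : ℝ}

theorem int_phi (hk : Measurable k) (hK : ∀ w, |k w| ≤ K) (h0 : 0 < δ) (h1 : δ ≤ 1)
    {Q : Set ℂ} (hQ : MeasurableSet Q) (hv : volume Q < ⊤) (ν : ℝ) (ζ : ℂ) :
    IntegrableOn (Phi k δ m b ν ζ) Q ∧ ∫ y in Q, Phi k δ m b ν ζ y =
      J k δ b Q ((2 * m : ℝ) : ℂ) ζ - Real.exp (δ * m) * J k δ b Q 0 ζ +
        ν * (J k δ b Q 0 1 - J k δ b Q 0 ζ) := by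
  have hA := j_int (b := b) hk hK h0 h1 hQ hv ((2 * m : ℝ) : ℂ) ζ
  have hB := j_int (b := b) hk hK h0 h1 hQ hv 0 ζ
  have hC := j_int (b := b) hk hK h0 h1 hQ hv 0 1
  have he : Phi k δ m b ν ζ = fun y : ℂ =>
      ‖y - ((2 * m : ℝ) : ℂ)‖ ^ (-δ) * (1 - δ * b * k ((y - ((2 * m : ℝ) : ℂ)) / ζ)) -
      Real.exp (δ * m) * (‖y - 0‖ ^ (-δ) * (1 - δ * b * k ((y - 0) / ζ))) +
      ν * (‖y - 0‖ ^ (-δ) * (1 - δ * b * k ((y - 0) / 1)) -
        ‖y - 0‖ ^ (-δ) * (1 - δ * b * k ((y - 0) / ζ))) := by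
    funext y
    unfold Phi
    simp only [sub_zero, div_one]
    ring
  constructor
  · rw [he]
    exact (hA.sub (hB.const_mul _)).add ((hC.sub hB).const_mul _)
  · rw [he]
    have aux : ∀ fA fB fC : ℂ → ℝ, IntegrableOn fA Q → IntegrableOn fB Q → IntegrableOn fC Q →
        ∫ y in Q, (fA y - Real.exp (δ * m) * fB y + ν * (fC y - fB y)) =
          (∫ y in Q, fA y) - Real.exp (δ * m) * (∫ y in Q, fB y) +
            ν * ((∫ y in Q, fC y) - ∫ y in Q, fB y) := by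
      intro fA fB fC a1 a2 a3
      have s1 : ∫ y in Q, (fA y - Real.exp (δ * m) * fB y + ν * (fC y - fB y)) =
          (∫ y in Q, (fA y - Real.exp (δ * m) * fB y)) + ∫ y in Q, ν * (fC y - fB y) :=
        integral_add (a1.sub (a2.const_mul _)) ((a3.sub a2).const_mul _)
      have s2 : ∫ y in Q, (fA y - Real.exp (δ * m) * fB y) =
          (∫ y in Q, fA y) - ∫ y in Q, Real.exp (δ * m) * fB y :=
        integral_sub a1 (a2.const_mul _)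
      have s3 : ∫ y in Q, (fC y - fB y) = (∫ y in Q, fC y) - ∫ y in Q, fB y :=
        integral_sub a3 a2
      rw [s1, s2, integral_const_mul, integral_const_mul, s3]
    exact aux _ _ _ hA hB hC

theorem vh_key_phi (hk : Measurable k) (hK : ∀ w, |k w| ≤ K) (h0 : 0 < δ) (h1 : δ ≤ 1) (hb : 0 ≤ b)
    (hb1 : K * b * δ ≤ 1) {B E : ℝ} (hB : 0 ≤ B)
    (hkey : ∀ ζ : ℂ, ζ ≠ 0 → ∃ ν : ℝ, 0 ≤ ν ∧ ν ≤ B ∧ ∃ H : ℂ → ℝ, Integrable H ∧
      (∀ y, 0 ≤ H y) ∧ (∀ᵐ y : ℂ, Phi k δ m b ν ζ y ≤ H y) ∧ ∫ y, H y ≤ E)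
    {Q : Set ℂ} (hQ : MeasurableSet Q) (hv : volume Q < ⊤) :
    Vh k δ b Q ((2 * m : ℝ) : ℂ) ≤ Real.exp (δ * m) * Vh k δ b Q 0 + E := by
  have hne : Nonempty {ζ : ℂ // ζ ≠ 0} := ⟨⟨1, one_ne_zero⟩⟩
  have key : ∀ η : ℝ, 0 < η → Vh k δ b Q ((2 * m : ℝ) : ℂ) ≤
      Real.exp (δ * m) * Vh k δ b Q 0 + E + (Real.exp (δ * m) + B) * η := by
    intro η hη
    obtain ⟨⟨ζ, hζ⟩, h2⟩ := exists_lt_of_ciInf_lt
      (lt_add_of_pos_right (Vh k δ b Q 0) hη : (⨅ ζ : {ζ : ℂ // ζ ≠ 0}, J k δ b Q 0 ζ) < _)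
    simp only at h2
    obtain ⟨ν, hν, hνB, H, hH, hH0, hle, hE⟩ := hkey ζ hζ
    obtain ⟨h3, h4⟩ := int_phi (b := b) (m := m) hk hK h0 h1 hQ hv ν ζ
    have h5 : ∫ y in Q, Phi k δ m b ν ζ y ≤ E := by
      calc ∫ y in Q, Phi k δ m b ν ζ y ≤ ∫ y in Q, H y :=
            integral_mono_ae h3 hH.integrableOn (ae_restrict_of_ae hle)
        _ ≤ ∫ y, H y := setIntegral_le_integral hH (Filter.Eventually.of_forall hH0)
        _ ≤ E := hE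
    rw [h4] at h5
    have h6 := vh_le hK h0 hb hb1 Q ((2 * m : ℝ) : ℂ) hζ
    have h7 := vh_le hK h0 hb hb1 Q 0 (one_ne_zero : (1 : ℂ) ≠ 0)
    have h8 : ν * (J k δ b Q 0 ζ - J k δ b Q 0 1) ≤ B * η := by
      have h9 : ν * (J k δ b Q 0 ζ - J k δ b Q 0 1) ≤ ν * η :=
        mul_le_mul_of_nonneg_left (by linarith) hν
      exact h9.trans (mul_le_mul_of_nonneg_right hνB hη.le)
    have h10 : Real.exp (δ * m) * J k δ b Q 0 ζ ≤ Real.exp (δ * m) * (Vh k δ b Q 0 + η) :=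
      mul_le_mul_of_nonneg_left h2.le (Real.exp_pos _).le
    nlinarith
  refine le_of_forall_pos_le_add fun ε hε => ?_
  have h11 : 0 < Real.exp (δ * m) + B := by positivity
  have h12 := key (ε / (Real.exp (δ * m) + B)) (by positivity)
  rwa [mul_div_cancel₀ _ h11.ne'] at h12

end Pool.Agent.Helper89.G3
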