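import Pool.Agent.Helper89.G3.Mv
import Pool.Agent.Helper89.G3.VhKey
import Pool.Agent.Helper33.G3.Templ

/-!
# G3-EXI: the strict functional exists

From `exists_tm` (helper33, template), `key` (helper17), `vh_key_phi`, `vh_gen`, `vh_add`, `vh_lo`, `vh_up`, with
`W = Vh k δ lam`, `a = lam`.
-/

set_option autoImplicit false

namespace Pool.Agent.Helper89.G3

open MeasureTheory Set
open scoped Real
open Pool.Agent.Helper90.G3 (Pt)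

theorem exists_pt' : ∃ a c₀ m₀ δ₀ : ℝ, 0 ≤ a ∧ 0 < c₀ ∧ c₀ ≤ 1 / 2 ∧ 0 < m₀ ∧ m₀ ≤ 1 ∧ 0 < δ₀ ∧
    δ₀ ≤ 1 / 4 ∧ ∀ δ : ℝ, 0 < δ → δ ≤ δ₀ → ∃ W : Set ℂ → ℂ → ℝ, Pt δ a c₀ m₀ W := by
  obtain ⟨k, Lk, ρ, kinf, c1, c2, e2, m1, hT⟩ := Helper33.G3.exists_tm
  obtain ⟨lam, c₀, m₀, d₀, B, hl, hl1, hc, hc1, hm, hm1, hd, hd1, hB, hkey⟩ :=
    Helper17.G3.key hT
  have hk := hT.meas
  have hK := hT.bd
  refine ⟨lam, c₀, m₀, d₀, hl.le, hc, hc1, hm, hm1, hd, hd1, ?_⟩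
  intro δ h0 h1
  have h4 : δ ≤ 1 := by linarith
  have hb1 : 1 * lam * δ ≤ 1 := by nlinarith
  refine ⟨Vh k δ lam, ?_, ?_, ?_, ?_⟩
  · intro Q hQ hv p
    have := vh_lo hk hK h0 h4 hl.le hb1 hQ hv p
    rwa [one_mul] at this
  · intro Q hQ hv p
    have := vh_up hk hK h0 h4 hl.le hb1 hQ hv p
    rwa [one_mul] at this
  · intro N Q X Q' hQ hX hQ' hv hs hXs hd' hXd p
    exact vh_add hk hK h0 h4 hl.le hb1 N Q X Q' hQ hX hQ' hv hs hXs hd' hXd p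
  · intro m s hm' hmm hs Q hQ hv p p' hp
    refine vh_gen hk hK h0 h4 hl.le hb1 (by linarith) hm' ?_ hs hQ hv hp
    intro Q hQ hv
    exact vh_key_phi hk hK h0 h4 hl.le hb1 hB.le (hkey δ h0 h1 m hm' hmm) hQ hv

end Pool.Agent.Helper89.G3
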