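import Pool.Agent.Helper89.G3.Ptw
import Pool.Agent.Helper89.G3.Omega

/-!
# G3-NEAR: consequences of the template properties for sets near the reference disk

`near_good` : `‖1/(2ζ)‖ ≤ 1 + r ≤ 3/2` gives `1/‖ζ‖ ≤ 3`, so `|Δ| ≤ 3 L m` for
`Δ y = k ((y-m)/ζ) - k (y/ζ)`; `∫_Q W' Δ = ∫_D W' Δ + ∫_{Q\D} W' Δ - ∫_{D\Q} W' Δ`,
`|∫_D W' Δ - ∫_D Δ| ≤ 3 L m ∫_D |W' - 1|` (`w_one`), `∫_D Δ ≥ c₂ m` (`good`).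
`near_bad` : `|∫_Q W f - ∫_D f| ≤ K (∫_{Q\D} W + ∫_{D\Q} W + ∫_D |W - 1|)` for `|f| ≤ K`;
`W ≤ W' + δ m Om` (`ptw_w`), `om_le`, `w_one`: the bracket is at most `C (Ds + δ)` if `Ds ≤ 1`.
Then `bad`.
-/

set_option autoImplicit false

namespace Pool.Agent.Helper89.G3

open MeasureTheory Set
open scoped Real

variable {k : ℂ → ℝ} {K L c₁ c₂ r m₁ : ℝ}

theorem near_good (hT : Tp k K L c₁ c₂ r m₁) (hL : 0 ≤ L) (hr : r ≤ 1 / 2) :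
    ∃ C : ℝ, 0 ≤ C ∧ ∀ δ m : ℝ, 0 < δ → δ ≤ 1 / 4 → 0 < m → m ≤ m₁ → m ≤ 1 / 4 →
      ∀ ζ : ℂ, ζ ≠ 0 → ‖1 / (2 * ζ) - 1‖ ≤ r → ∀ Q : Set ℂ, MeasurableSet Q → volume Q < ⊤ →
        c₂ * m - C * m * (δ + Ds δ m Q) ≤
          ∫ y in Q, ‖y - (m : ℂ)‖ ^ (-δ) * (k ((y - m) / ζ) - k (y / ζ)) := by
  sorry

theorem near_bad (hT : Tp k K L c₁ c₂ r m₁) (hK : 0 ≤ K) (hL : 0 ≤ L) (hc : 0 < c₁) :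
    ∃ κ δ₂ : ℝ, 0 < κ ∧ 0 < δ₂ ∧ δ₂ ≤ 1 / 4 ∧ ∀ δ m : ℝ, 0 < δ → δ ≤ δ₂ → 0 < m → m ≤ 1 / 4 →
      ∀ ζ : ℂ, ζ ≠ 0 → r ≤ ‖1 / (2 * ζ) - 1‖ → ∀ Q : Set ℂ, MeasurableSet Q → volume Q < ⊤ →
        Ds δ m Q ≤ κ →
        ∫ y in Q, ‖y‖ ^ (-δ) * k (y / ζ) ≤ ∫ y in Q, ‖y‖ ^ (-δ) * k (2 * y) := by
  sorry

end Pool.Agent.Helper89.G3
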