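import Pool.Agent.Helper89.G3.Defs

/-!
# G3-POTH: elementary facts on `J` and `Vh`

`J = ∫ (nonnegative)` when `K b δ ≤ 1`, so `J` is monotone and additive in `Q` (compare `vp_add` in
`Helper90/G2/Pot.lean`), and the infimum over `ζ` is superadditive: for every `ζ`,
`J Q' ≥ J X + ∑ J (Q d) ≥ Vh X + ∑ Vh (Q d)` (`le_ciInf`, `ciInf_le`; bounded below by `0`).
`vh_move` : the inequality for every `ζ` with a suitable `ζ'` gives the inequality of the infima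
(`Vh Q p' ≤ J Q p' ζ' ≤ E + exp * J Q p ζ`, then the infimum over `ζ`).
-/

set_option autoImplicit false

namespace Pool.Agent.Helper89.G3

open MeasureTheory Set
open scoped Real
open Pool.Agent.Helper90.G2 (Vp vp_int vp_nonneg vp_mono)

variable {k : ℂ → ℝ} {K δ b : ℝ}

theorem poth_abs (hK : ∀ w, |k w| ≤ K) (h0 : 0 < δ) (hb : 0 ≤ b) (w : ℂ) :
    |δ * b * k w| ≤ K * b * δ := by
  rw [abs_mul, abs_of_nonneg (mul_nonneg h0.le hb)]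
  nlinarith [hK w, mul_nonneg h0.le hb]

theorem poth_nn (hK : ∀ w, |k w| ≤ K) (h0 : 0 < δ) (hb : 0 ≤ b) (hb1 : K * b * δ ≤ 1) (p ζ y : ℂ) :
    0 ≤ ‖y - p‖ ^ (-δ) * (1 - δ * b * k ((y - p) / ζ)) := by
  have h := (abs_le.1 (poth_abs hK h0 hb ((y - p) / ζ))).2
  exact mul_nonneg (Real.rpow_nonneg (norm_nonneg _) _) (by linarith)

theorem j_int (hk : Measurable k) (hK : ∀ w, |k w| ≤ K) (h0 : 0 < δ) (h1 : δ ≤ 1) {Q : Set ℂ}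
    (hQ : MeasurableSet Q) (hv : volume Q < ⊤) (p ζ : ℂ) :
    IntegrableOn (fun y : ℂ => ‖y - p‖ ^ (-δ) * (1 - δ * b * k ((y - p) / ζ))) Q := by
  have hI := vp_int h0 h1 hQ hv p
  refine Integrable.mono' (hI.mul_const (1 + |δ * b| * K)) ?_ ?_
  · have h2 : Measurable fun y : ℂ => k ((y - p) / ζ) := hk.comp (by fun_prop)
    exact (by fun_prop : Measurable fun y : ℂ =>
      ‖y - p‖ ^ (-δ) * (1 - δ * b * k ((y - p) / ζ))).aestronglyMeasurable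
  · refine Filter.Eventually.of_forall fun y => ?_
    rw [norm_mul, Real.norm_of_nonneg (Real.rpow_nonneg (norm_nonneg _) _)]
    refine mul_le_mul_of_nonneg_left ?_ (Real.rpow_nonneg (norm_nonneg _) _)
    refine (norm_sub_le _ _).trans ?_
    rw [norm_one, norm_mul, Real.norm_eq_abs, Real.norm_eq_abs]
    have := mul_le_mul_of_nonneg_left (hK ((y - p) / ζ)) (abs_nonneg (δ * b))
    linarith

theorem j_lo (hk : Measurable k) (hK : ∀ w, |k w| ≤ K) (h0 : 0 < δ) (h1 : δ ≤ 1) (hb : 0 ≤ b)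
    {Q : Set ℂ} (hQ : MeasurableSet Q) (hv : volume Q < ⊤) (p ζ : ℂ) :
    (1 - K * b * δ) * Vp δ Q p ≤ J k δ b Q p ζ := by
  unfold Vp J
  rw [← integral_const_mul]
  refine integral_mono ((vp_int h0 h1 hQ hv p).const_mul _) (j_int hk hK h0 h1 hQ hv p ζ)
    fun y => ?_
  have h := (abs_le.1 (poth_abs hK h0 hb ((y - p) / ζ))).2
  simp only
  rw [mul_comm]
  exact mul_le_mul_of_nonneg_left (by linarith) (Real.rpow_nonneg (norm_nonneg _) _)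

theorem j_up (hk : Measurable k) (hK : ∀ w, |k w| ≤ K) (h0 : 0 < δ) (h1 : δ ≤ 1) (hb : 0 ≤ b)
    {Q : Set ℂ} (hQ : MeasurableSet Q) (hv : volume Q < ⊤) (p ζ : ℂ) :
    J k δ b Q p ζ ≤ (1 + K * b * δ) * Vp δ Q p := by
  unfold Vp J
  rw [← integral_const_mul]
  refine integral_mono (j_int hk hK h0 h1 hQ hv p ζ) ((vp_int h0 h1 hQ hv p).const_mul _)
    fun y => ?_
  have h := (abs_le.1 (poth_abs hK h0 hb ((y - p) / ζ))).1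
  simp only
  rw [mul_comm (1 + K * b * δ)]
  exact mul_le_mul_of_nonneg_left (by linarith) (Real.rpow_nonneg (norm_nonneg _) _)

theorem j_nonneg (hK : ∀ w, |k w| ≤ K) (h0 : 0 < δ) (hb : 0 ≤ b) (hb1 : K * b * δ ≤ 1)
    (Q : Set ℂ) (p ζ : ℂ) : 0 ≤ J k δ b Q p ζ :=
  integral_nonneg fun y => poth_nn hK h0 hb hb1 p ζ y

theorem poth_bdd (hK : ∀ w, |k w| ≤ K) (h0 : 0 < δ) (hb : 0 ≤ b) (hb1 : K * b * δ ≤ 1)
    (Q : Set ℂ) (p : ℂ) :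
    BddBelow (range fun ζ : {ζ : ℂ // ζ ≠ 0} => J k δ b Q p ζ) := by
  refine ⟨0, ?_⟩
  rintro _ ⟨ζ, rfl⟩
  exact j_nonneg hK h0 hb hb1 Q p ζ

theorem vh_le (hK : ∀ w, |k w| ≤ K) (h0 : 0 < δ) (hb : 0 ≤ b) (hb1 : K * b * δ ≤ 1)
    (Q : Set ℂ) (p : ℂ) {ζ : ℂ} (hζ : ζ ≠ 0) : Vh k δ b Q p ≤ J k δ b Q p ζ :=
  ciInf_le (poth_bdd hK h0 hb hb1 Q p) (⟨ζ, hζ⟩ : {ζ : ℂ // ζ ≠ 0})

theorem le_vh {Q : Set ℂ} {p : ℂ} {x : ℝ} (h : ∀ ζ : ℂ, ζ ≠ 0 → x ≤ J k δ b Q p ζ) :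
    x ≤ Vh k δ b Q p := by
  have : Nonempty {ζ : ℂ // ζ ≠ 0} := ⟨⟨1, one_ne_zero⟩⟩
  exact le_ciInf fun ζ => h ζ.1 ζ.2

theorem vh_nonneg (hK : ∀ w, |k w| ≤ K) (h0 : 0 < δ) (hb : 0 ≤ b) (hb1 : K * b * δ ≤ 1)
    (Q : Set ℂ) (p : ℂ) : 0 ≤ Vh k δ b Q p :=
  le_vh fun ζ _ => j_nonneg hK h0 hb hb1 Q p ζ

theorem vh_lo (hk : Measurable k) (hK : ∀ w, |k w| ≤ K) (h0 : 0 < δ) (h1 : δ ≤ 1) (hb : 0 ≤ b)
    (_hb1 : K * b * δ ≤ 1) {Q : Set ℂ} (hQ : MeasurableSet Q) (hv : volume Q < ⊤) (p : ℂ) :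
    (1 - K * b * δ) * Vp δ Q p ≤ Vh k δ b Q p :=
  le_vh fun ζ _ => j_lo hk hK h0 h1 hb hQ hv p ζ

theorem vh_up (hk : Measurable k) (hK : ∀ w, |k w| ≤ K) (h0 : 0 < δ) (h1 : δ ≤ 1) (hb : 0 ≤ b)
    (hb1 : K * b * δ ≤ 1) {Q : Set ℂ} (hQ : MeasurableSet Q) (hv : volume Q < ⊤) (p : ℂ) :
    Vh k δ b Q p ≤ (1 + K * b * δ) * Vp δ Q p :=
  (vh_le hK h0 hb hb1 Q p one_ne_zero).trans (j_up hk hK h0 h1 hb hQ hv p 1)

theorem j_add (hk : Measurable k) (hK : ∀ w, |k w| ≤ K) (h0 : 0 < δ) (h1 : δ ≤ 1) (hb : 0 ≤ b)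
    (hb1 : K * b * δ ≤ 1) (N : ℕ) (Q : ℕ → Set ℂ) (X Q' : Set ℂ)
    (hQ : ∀ d < N, MeasurableSet (Q d)) (_hX : MeasurableSet X) (hQ' : MeasurableSet Q')
    (hv : volume Q' < ⊤) (hs : ∀ d < N, Q d ⊆ Q') (hXs : X ⊆ Q')
    (hd : ∀ d < N, ∀ e < N, d ≠ e → Disjoint (Q d) (Q e)) (hXd : ∀ d < N, Disjoint X (Q d))
    (p ζ : ℂ) : J k δ b X p ζ + ∑ d ∈ Finset.range N, J k δ b (Q d) p ζ ≤ J k δ b Q' p ζ := by
  have hI := j_int (b := b) hk hK h0 h1 hQ' hv p ζ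
  have hU : ⋃ d ∈ Finset.range N, Q d ⊆ Q' := by
    intro w hw
    simp only [mem_iUnion, Finset.mem_range, exists_prop] at hw
    obtain ⟨d, hdN, hw⟩ := hw
    exact hs d hdN hw
  have hUm : MeasurableSet (⋃ d ∈ Finset.range N, Q d) :=
    Finset.measurableSet_biUnion _ fun d hdN => hQ d (Finset.mem_range.mp hdN)
  have h2 : ∫ y in ⋃ d ∈ Finset.range N, Q d,
      ‖y - p‖ ^ (-δ) * (1 - δ * b * k ((y - p) / ζ)) =
      ∑ d ∈ Finset.range N, J k δ b (Q d) p ζ := by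
    refine integral_biUnion_finset (Finset.range N) (fun d hdN => hQ d (Finset.mem_range.mp hdN))
      ?_ (fun d hdN => hI.mono_set (hs d (Finset.mem_range.mp hdN)))
    intro a ha b hb hab
    exact hd a (Finset.mem_range.mp ha) b (Finset.mem_range.mp hb) hab
  have h3 : Disjoint X (⋃ d ∈ Finset.range N, Q d) := by
    rw [disjoint_iUnion₂_right]
    exact fun d hdN => hXd d (Finset.mem_range.mp hdN)
  have h4 : ∫ y in X ∪ ⋃ d ∈ Finset.range N, Q d,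
      ‖y - p‖ ^ (-δ) * (1 - δ * b * k ((y - p) / ζ)) =
      J k δ b X p ζ + ∑ d ∈ Finset.range N, J k δ b (Q d) p ζ := by
    rw [← h2]
    exact setIntegral_union h3 hUm (hI.mono_set hXs) (hI.mono_set hU)
  rw [← h4]
  exact setIntegral_mono_set hI (Filter.Eventually.of_forall fun y => poth_nn hK h0 hb hb1 p ζ y)
    (union_subset hXs hU).eventuallyLE

theorem vh_add (hk : Measurable k) (hK : ∀ w, |k w| ≤ K) (h0 : 0 < δ) (h1 : δ ≤ 1) (hb : 0 ≤ b)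
    (hb1 : K * b * δ ≤ 1) (N : ℕ) (Q : ℕ → Set ℂ) (X Q' : Set ℂ)
    (hQ : ∀ d < N, MeasurableSet (Q d)) (hX : MeasurableSet X) (hQ' : MeasurableSet Q')
    (hv : volume Q' < ⊤) (hs : ∀ d < N, Q d ⊆ Q') (hXs : X ⊆ Q')
    (hd : ∀ d < N, ∀ e < N, d ≠ e → Disjoint (Q d) (Q e)) (hXd : ∀ d < N, Disjoint X (Q d))
    (p : ℂ) : Vh k δ b X p + ∑ d ∈ Finset.range N, Vh k δ b (Q d) p ≤ Vh k δ b Q' p := by
  refine le_vh fun ζ hζ => ?_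
  refine le_trans (add_le_add (vh_le hK h0 hb hb1 X p hζ)
    (Finset.sum_le_sum fun d _ => vh_le hK h0 hb hb1 (Q d) p hζ)) ?_
  exact j_add hk hK h0 h1 hb hb1 N Q X Q' hQ hX hQ' hv hs hXs hd hXd p ζ

theorem vh_move (hK : ∀ w, |k w| ≤ K) (h0 : 0 < δ) (hb : 0 ≤ b) (hb1 : K * b * δ ≤ 1)
    {Q : Set ℂ} {p p' : ℂ} {e E : ℝ} (he : 0 ≤ e)
    (h : ∀ ζ : ℂ, ζ ≠ 0 → ∃ ζ' : ℂ, ζ' ≠ 0 ∧ J k δ b Q p' ζ' ≤ e * J k δ b Q p ζ + E) :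
    Vh k δ b Q p' ≤ e * Vh k δ b Q p + E := by
  have h2 : ∀ ζ : ℂ, ζ ≠ 0 → Vh k δ b Q p' ≤ e * J k δ b Q p ζ + E := by
    intro ζ hζ
    obtain ⟨ζ', hζ', h3⟩ := h ζ hζ
    exact (vh_le hK h0 hb hb1 Q p' hζ').trans h3
  rcases he.eq_or_lt with he | he
  · have := h2 1 one_ne_zero
    rw [← he] at this ⊢
    linarith
  · have h3 : (Vh k δ b Q p' - E) / e ≤ Vh k δ b Q p := by
      refine le_vh fun ζ hζ => ?_
      rw [div_le_iff₀ he]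
      linarith [h2 ζ hζ]
    rw [div_le_iff₀ he] at h3
    linarith

end Pool.Agent.Helper89.G3
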