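import Pool.Agent.Helper89.G3.Ptw
import Pool.Agent.Helper89.G3.Omega
import Pool.Agent.Helper89.G3.PotH

/-!
# G3-SPLIT: the difference of the two functionals

`J Q m ζ - e^(δ m) J Q 0 ζ` is the integral over `Q` of
`(W' - e^(δ m) W) - δ b (W' - e^(δ m) W) k (y/ζ) - δ b W' (k ((y-m)/ζ) - k (y/ζ))`;
first term `ptw_one`, second `ptw_two` and `|k| ≤ K`, third kept. `split_far`: the third one bounded
by `ptw_k` (`W' (1/|y| + 1/|y-m|) ≤ Om`). All integrands are dominated by `C Om` (`om_int`).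
`j_half` : `J Q 0 (1/2) ≤ J Q 0 ζ` from the inequality of the template terms.
-/

set_option autoImplicit false

namespace Pool.Agent.Helper89.G3

open MeasureTheory Set
open scoped Real

variable {k : ℂ → ℝ} {K L c₁ c₂ r m₁ : ℝ}

theorem split (hT : Tp k K L c₁ c₂ r m₁) (hK : 0 ≤ K) {δ b m : ℝ} (h0 : 0 < δ)
    (h1 : δ ≤ 1 / 4) (hb : 0 ≤ b) (hm : 0 < m) (hm1 : m ≤ 1 / 4) {ζ : ℂ} (hζ : ζ ≠ 0)
    {Q : Set ℂ} (hQ : MeasurableSet Q) (hv : volume Q < ⊤) :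
    J k δ b Q m ζ ≤ Real.exp (δ * m) * J k δ b Q 0 ζ +
      δ * (∫ y in Q, ‖y - (m : ℂ)‖ ^ (-δ) * (Xl m y - m)) +
      2 * K * δ ^ 2 * b * m * (∫ y in Q, Om δ m y) -
      δ * b * ∫ y in Q, ‖y - (m : ℂ)‖ ^ (-δ) * (k ((y - m) / ζ) - k (y / ζ)) := by
  sorry

theorem split_far (hT : Tp k K L c₁ c₂ r m₁) (hL : 0 ≤ L) {δ m : ℝ} (h0 : 0 < δ)
    (h1 : δ ≤ 1 / 4) (hm : 0 < m) (hm1 : m ≤ 1 / 4) {ζ : ℂ} (hζ : ζ ≠ 0)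
    {Q : Set ℂ} (hQ : MeasurableSet Q) (hv : volume Q < ⊤) :
    -(4 * L * m * ∫ y in Q, Om δ m y) ≤
      ∫ y in Q, ‖y - (m : ℂ)‖ ^ (-δ) * (k ((y - m) / ζ) - k (y / ζ)) := by
  sorry

theorem j_half (hT : Tp k K L c₁ c₂ r m₁) {δ b : ℝ} (h0 : 0 < δ) (h1 : δ ≤ 1 / 4) (hb : 0 ≤ b)
    {ζ : ℂ} {Q : Set ℂ} (hQ : MeasurableSet Q) (hv : volume Q < ⊤)
    (h : ∫ y in Q, ‖y‖ ^ (-δ) * k (y / ζ) ≤ ∫ y in Q, ‖y‖ ^ (-δ) * k (2 * y)) :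
    J k δ b Q 0 (1 / 2) ≤ J k δ b Q 0 ζ := by
  sorry

end Pool.Agent.Helper89.G3
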