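import Pool.Agent.Helper89.G3.Excess
import Pool.Agent.Helper89.G3.Near
import Pool.Agent.Helper89.G3.Split

/-!
# G3-FIN: the normalised strict move inequality

Constants: `C₃` of `near_good`, `κ₁, δ₂` of `near_bad`; `κ = min κ₁ (c₂ / (4 C₃ + 1))`; `τ, m₂` of `exc_def κ`;
`C` of `om_le`; `b` with `b (2 K + 4 L) C (1/κ + 1) ≤ τ / 2`; then `δ₀` small, `c₀` small.
Case `Ds ≥ κ`: `ζ' = ζ`, `split`, `split_far`, `exc_def`, `om_le` (`1 + Ds ≤ (1/κ + 1) Ds`): the sum is at most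
`δ ((1 + 32 δ) π m / 4 - τ m κ / 2)`. Case `Ds < κ`: if `r ≤ ‖1/(2ζ) - 1‖` replace `ζ` by `1/2`
(`near_bad`, `j_half`); then `near_good`, `exc_le`, `om_le`: at most
`δ ((1 + 32 δ) π m / 4 + 2 K δ b m C (1 + κ) - b m (c₂ - C₃ δ - c₂/4))`.
-/

set_option autoImplicit false

namespace Pool.Agent.Helper89.G3

open MeasureTheory Set
open scoped Real

variable {k : ℂ → ℝ} {K L c₁ c₂ r m₁ : ℝ}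

theorem fin (hT : Tp k K L c₁ c₂ r m₁) (hK : 0 ≤ K) (hL : 0 ≤ L) (hc₁ : 0 < c₁) (hc₂ : 0 < c₂)
    (hr : 0 < r) (hr1 : r ≤ 1 / 2) (hm₁ : 0 < m₁) :
    ∃ b c₀ m₀ δ₀ : ℝ, 0 < b ∧ 0 < c₀ ∧ c₀ ≤ 1 / 2 ∧ 0 < m₀ ∧ m₀ ≤ 1 ∧ 0 < δ₀ ∧ δ₀ ≤ 1 / 4 ∧
      K * b * δ₀ ≤ 1 ∧ ∀ δ m : ℝ, 0 < δ → δ ≤ δ₀ → 0 < m → m ≤ m₀ → ∀ Q : Set ℂ,
        MeasurableSet Q → volume Q < ⊤ → ∀ ζ : ℂ, ζ ≠ 0 → ∃ ζ' : ℂ, ζ' ≠ 0 ∧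
          J k δ b Q m ζ' ≤ Real.exp (δ * m) * J k δ b Q 0 ζ +
            (1 - c₀) * (δ * (π * m / 4)) := by
  sorry

end Pool.Agent.Helper89.G3
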