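import Pool.Agent.Helper89.G3.Defs
import Pool.Agent.Helper12.G3.Poly

/-!
# G3-MOM: the template polynomial and its means over disks

`kq` is a polynomial of degree 4 in `u = re w`, `v = im w`. `Gq x y R / 1` is the mean of `kq` over a disk
of centre `x + i y` and radius `√R`. Moments of a disk `B(c, r)` (means): `u : x`, `u² : x² + r²/4`,
`v² : y² + r²/4`, `u³ : x³ + (3/4) x r²`, `u v² : x y² + x r²/4`, `u⁴ : x⁴ + (3/2) x² r² + r⁴/8`,
`u² v² : x² y² + (x² + y²) r²/4 + r⁴/24`, `v⁴ : y⁴ + (3/2) y² r² + r⁴/8`. Proof by complex moments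
(`Helper12.G3.Mom`).
-/

set_option autoImplicit false

namespace Pool.Agent.Helper89.G3

open MeasureTheory Set
open scoped Real

/-- the template polynomial -/
noncomputable def kq (w : ℂ) : ℝ :=
  -2 + 4 * w.re - 25 / 6 * w.re ^ 2 + 77 / 6 * w.im ^ 2 + 2 * w.re ^ 3 - 14 * w.re * w.im ^ 2 -
    12 / 5 * w.re ^ 4 + 168 / 5 * w.re ^ 2 * w.im ^ 2 - 28 * w.im ^ 4

/-- its mean over the disk of centre `x + i y` and radius `√R` -/
noncomputable def Gq (x y R : ℝ) : ℝ :=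
  -2 + 4 * x - 25 / 6 * (x ^ 2 + R / 4) + 77 / 6 * (y ^ 2 + R / 4) +
    2 * (x ^ 3 + 3 / 4 * x * R) - 14 * (x * y ^ 2 + x * R / 4) -
    12 / 5 * (x ^ 4 + 3 / 2 * x ^ 2 * R + R ^ 2 / 8) +
    168 / 5 * (x ^ 2 * y ^ 2 + (x ^ 2 + y ^ 2) * R / 4 + R ^ 2 / 24) -
    28 * (y ^ 4 + 3 / 2 * y ^ 2 * R + R ^ 2 / 8)

theorem gq_diag (x y : ℝ) :
    Gq x y (x ^ 2 + y ^ 2) = -(1 - x - 8 * y ^ 2) ^ 2 - (x - 1) ^ 2 - y ^ 2 := by
  unfold Gq
  ring

theorem kq_cont : Continuous kq := by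
  unfold kq
  fun_prop

open scoped ComplexConjugate in
/-- the same polynomial as `Helper12.G3.k0` -/
theorem kq_eq (w : ℂ) : kq w = Pool.Agent.Helper12.G3.k0 w := by
  have h1 : w * conj w = ((w.re ^ 2 + w.im ^ 2 : ℝ) : ℂ) := by
    rw [Complex.mul_conj, Complex.normSq_apply]
    congr 1
    ring
  have e : (-2 + 4 * w + (13 / 3) * (w * conj w) - (17 / 2) * w ^ 2 - 2 * (w ^ 2 * conj w) +
      4 * w ^ 3 - (36 / 5) * (w ^ 2 * conj w ^ 2) - 8 * w ^ 4 + (64 / 5) * (w ^ 3 * conj w) : ℂ) =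
      ((-2 : ℝ) : ℂ) + ((4 : ℝ) : ℂ) * w + (((13 / 3) * (w.re ^ 2 + w.im ^ 2) : ℝ) : ℂ) +
      ((-(17 / 2) : ℝ) : ℂ) * w ^ 2 + ((-2 * (w.re ^ 2 + w.im ^ 2) : ℝ) : ℂ) * w +
      ((4 : ℝ) : ℂ) * w ^ 3 + ((-(36 / 5) * (w.re ^ 2 + w.im ^ 2) ^ 2 : ℝ) : ℂ) +
      ((-8 : ℝ) : ℂ) * w ^ 4 + (((64 / 5) * (w.re ^ 2 + w.im ^ 2) : ℝ) : ℂ) * w ^ 2 := by
    have h2 : (-2 + 4 * w + (13 / 3) * (w * conj w) - (17 / 2) * w ^ 2 - 2 * (w ^ 2 * conj w) +
      4 * w ^ 3 - (36 / 5) * (w ^ 2 * conj w ^ 2) - 8 * w ^ 4 + (64 / 5) * (w ^ 3 * conj w) : ℂ) =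
      -2 + 4 * w + (13 / 3) * (w * conj w) - (17 / 2) * w ^ 2 - 2 * (w * conj w) * w +
      4 * w ^ 3 - (36 / 5) * (w * conj w) ^ 2 - 8 * w ^ 4 + (64 / 5) * (w * conj w) * w ^ 2 := by
      ring
    rw [h2, h1]
    push_cast
    ring
  unfold Pool.Agent.Helper12.G3.k0 kq
  rw [e]
  simp only [Complex.add_re, Complex.re_ofReal_mul, Complex.ofReal_re,
    Pool.Agent.Helper12.G3.pow2_re, Pool.Agent.Helper12.G3.pow3_re,
    Pool.Agent.Helper12.G3.pow4_re]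
  ring

open scoped ComplexConjugate in
/-- moments of a shifted disc -/
theorem Mom_shift (a b : ℕ) (c : ℂ) (ρ : ℝ) :
    ∫ w in Metric.ball (0 : ℂ) 1, (c + ρ * w) ^ a * conj (c + ρ * w) ^ b =
      ∑ m ∈ Finset.range (a + 1), ∑ n ∈ Finset.range (b + 1),
        c ^ m * (a.choose m : ℂ) * (conj c ^ n * (b.choose n : ℂ)) *
          ((ρ : ℂ) ^ (a - m) * (ρ : ℂ) ^ (b - n)) *
          (if a - m = b - n then ((π / (((a - m : ℕ) : ℝ) + 1) : ℝ) : ℂ) else 0) := by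
  have h1 : ∀ w : ℂ, (c + ρ * w) ^ a * conj (c + ρ * w) ^ b =
      ∑ m ∈ Finset.range (a + 1), ∑ n ∈ Finset.range (b + 1),
        c ^ m * (a.choose m : ℂ) * (conj c ^ n * (b.choose n : ℂ)) *
          ((ρ : ℂ) ^ (a - m) * (ρ : ℂ) ^ (b - n)) *
          (w ^ (a - m) * conj w ^ (b - n)) := by
    intro w
    rw [map_add, map_mul, Complex.conj_ofReal, add_pow, add_pow, Finset.sum_mul_sum]
    refine Finset.sum_congr rfl fun m _ => Finset.sum_congr rfl fun n _ => ?_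
    rw [mul_pow, mul_pow]
    ring
  simp only [h1]
  rw [integral_finsetSum]
  · refine Finset.sum_congr rfl fun m _ => ?_
    rw [integral_finsetSum]
    · refine Finset.sum_congr rfl fun n _ => ?_
      rw [integral_const_mul]
      congr 1
      by_cases h : a - m = b - n
      · rw [if_pos h, ← h]
        exact Pool.Agent.Helper12.G3.mom_eq (a - m)
      · rw [if_neg h]
        exact Pool.Agent.Helper12.G3.mom_ne h
    · intro n _
      exact Pool.Agent.Helper12.G3.intOn (by fun_prop) 0 1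
  · intro m _
    exact Pool.Agent.Helper12.G3.intOn (by fun_prop) 0 1

open scoped ComplexConjugate in
theorem Mom_unit (c : ℂ) (ρ : ℝ) :
    ∫ w in Metric.ball (0 : ℂ) 1, kq (c + ρ * w) = π * Gq c.re c.im (ρ ^ 2) := by
  have h1 : ∀ w : ℂ, kq (c + ρ * w) =
      Complex.re (-2 * ((c + ρ * w) ^ 0 * conj (c + ρ * w) ^ 0)
        + 4 * ((c + ρ * w) ^ 1 * conj (c + ρ * w) ^ 0)
        + (13 / 3) * ((c + ρ * w) ^ 1 * conj (c + ρ * w) ^ 1)
        + -(17 / 2) * ((c + ρ * w) ^ 2 * conj (c + ρ * w) ^ 0)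
        + -2 * ((c + ρ * w) ^ 2 * conj (c + ρ * w) ^ 1)
        + 4 * ((c + ρ * w) ^ 3 * conj (c + ρ * w) ^ 0)
        + -(36 / 5) * ((c + ρ * w) ^ 2 * conj (c + ρ * w) ^ 2)
        + -8 * ((c + ρ * w) ^ 4 * conj (c + ρ * w) ^ 0)
        + (64 / 5) * ((c + ρ * w) ^ 3 * conj (c + ρ * w) ^ 1)) := by
    intro w
    rw [kq_eq]
    unfold Pool.Agent.Helper12.G3.k0
    congr 1
    ring
  simp only [h1]
  rw [Pool.Agent.Helper12.G3.re_int (by fun_prop)]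
  have hI : ∀ {f : ℂ → ℂ}, Continuous f → IntegrableOn f (Metric.ball (0 : ℂ) 1) := fun hf =>
    Pool.Agent.Helper12.G3.intOn hf 0 1
  have hm : ∀ (A : ℂ) (a b : ℕ), ∫ w in Metric.ball (0 : ℂ) 1,
      A * ((c + ρ * w) ^ a * conj (c + ρ * w) ^ b) =
      A * ∑ m ∈ Finset.range (a + 1), ∑ n ∈ Finset.range (b + 1),
        c ^ m * (a.choose m : ℂ) * (conj c ^ n * (b.choose n : ℂ)) *
          ((ρ : ℂ) ^ (a - m) * (ρ : ℂ) ^ (b - n)) *
          (if a - m = b - n then ((π / (((a - m : ℕ) : ℝ) + 1) : ℝ) : ℂ) else 0) := by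
    intro A a b
    rw [integral_const_mul, Mom_shift]
  rw [integral_add (hI (by fun_prop)) (hI (by fun_prop)),
    integral_add (hI (by fun_prop)) (hI (by fun_prop)),
    integral_add (hI (by fun_prop)) (hI (by fun_prop)),
    integral_add (hI (by fun_prop)) (hI (by fun_prop)),
    integral_add (hI (by fun_prop)) (hI (by fun_prop)),
    integral_add (hI (by fun_prop)) (hI (by fun_prop)),
    integral_add (hI (by fun_prop)) (hI (by fun_prop)),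
    integral_add (hI (by fun_prop)) (hI (by fun_prop))]
  simp only [hm]
  have h2 : c * conj c = ((c.re ^ 2 + c.im ^ 2 : ℝ) : ℂ) := by
    rw [Complex.mul_conj, Complex.normSq_apply]
    congr 1
    ring
  obtain ⟨N, hN⟩ : ∃ N : ℝ, N = c.re ^ 2 + c.im ^ 2 := ⟨_, rfl⟩
  rw [← hN] at h2
  have e : (π : ℝ) * Gq c.re c.im (ρ ^ 2) = ((π : ℂ) * (((-2 : ℝ) : ℂ) + ((4 : ℝ) : ℂ) * c +
      (((13 / 3) * (N + ρ ^ 2 / 2) : ℝ) : ℂ) +
      ((-(17 / 2) : ℝ) : ℂ) * c ^ 2 + ((-2 * (N + ρ ^ 2) : ℝ) : ℂ) * c +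
      ((4 : ℝ) : ℂ) * c ^ 3 + ((-(36 / 5) * (N ^ 2 + 2 * N * ρ ^ 2 + ρ ^ 4 / 3) : ℝ) : ℂ) +
      ((-8 : ℝ) : ℂ) * c ^ 4 + (((64 / 5) * (N + 3 / 2 * ρ ^ 2) : ℝ) : ℂ) * c ^ 2)).re := by
    rw [Complex.re_ofReal_mul]
    simp only [Complex.add_re, Complex.re_ofReal_mul, Complex.ofReal_re,
      Pool.Agent.Helper12.G3.pow2_re, Pool.Agent.Helper12.G3.pow3_re,
      Pool.Agent.Helper12.G3.pow4_re]
    unfold Gq
    rw [hN]
    ring
  rw [e]
  congr 1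
  simp [Finset.sum_range_succ, Nat.choose]
  linear_combination (π : ℂ) * (13 / 3 - 2 * c - (36 / 5) * (c * conj c + N + 2 * ρ ^ 2) +
    (64 / 5) * c ^ 2) * h2

/-- the mean of the polynomial over a disk -/
theorem mom (c : ℂ) {ρ : ℝ} (hρ : 0 < ρ) :
    ∫ w in Metric.ball c ρ, kq w = π * ρ ^ 2 * Gq c.re c.im (ρ ^ 2) := by
  have h1 : ∫ w in Metric.ball c ρ, kq w = ∫ w in Metric.ball (0 : ℂ) ρ, kq (c + w) := by
    have h1 := (measurePreserving_add_left (volume : Measure ℂ) c).setIntegral_preimage_emb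
      (measurableEmbedding_addLeft c) kq (Metric.ball c ρ)
    have h2 : (fun x : ℂ => c + x) ⁻¹' Metric.ball c ρ = Metric.ball (0 : ℂ) ρ := by
      ext w
      rw [mem_preimage, Metric.mem_ball, mem_ball_zero_iff, dist_eq_norm, add_sub_cancel_left]
    rw [← h1, h2]
  have h2 := Measure.setIntegral_comp_smul_of_pos (volume : Measure ℂ) (fun w => kq (c + w))
    (Metric.ball (0 : ℂ) 1) hρ
  rw [Complex.finrank_real_complex, smul_unitBall hρ.ne', Real.norm_eq_abs, abs_of_pos hρ] at h2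
  have h3 := Mom_unit c ρ
  have h4 : ∫ w in Metric.ball (0 : ℂ) 1, kq (c + ρ * w) =
      ∫ w in Metric.ball (0 : ℂ) 1, kq (c + ρ • w) := by
    simp only [Complex.real_smul]
  rw [h4, h2, smul_eq_mul] at h3
  rw [h1]
  have h5 : ρ ^ 2 ≠ 0 := by positivity
  field_simp at h3
  linarith

end Pool.Agent.Helper89.G3
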