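import Pool.Agent.Helper89.G3.Cov
import Pool.Agent.Helper89.G3.PotH
import Pool.Agent.Helper90.G3.Defs

/-!
# G3-MV: from the key inequality to the move inequality

`Ph` is the density of helper17's key inequality: its integral over `Q` is
`J Q (2m) ζ - e^(δ m) J Q 0 ζ + ν (J Q 0 1 - J Q 0 ζ)`.
`vh_key` : so `Vh Q (2m) ≤ J Q (2m) ζ ≤ e^(δ m) J Q 0 ζ + ν (J Q 0 ζ - Vh Q 0) + E`; choose `ζ` with
`J Q 0 ζ ≤ Vh Q 0 + η` (`exists_lt_of_ciInf_lt`), `ν ≤ B`, and let `η → 0`.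
`vh_gen` : if `p' ≠ p`, `a = (p' - p) / (2m)`, `Q' = {w | p + a w ∈ Q}`: `Vh Q p = ‖a‖^(2-δ) Vh Q' 0`,
`Vh Q p' = ‖a‖^(2-δ) Vh Q' (2m)`, `‖a‖ ≤ s / (2m)`. If `p' = p`: `Vh ≥ 0` and `e^(δ m) ≥ 1`.
-/

set_option autoImplicit false
set_option linter.unusedVariables false

namespace Pool.Agent.Helper89.G3

open MeasureTheory Set
open scoped Real
open Pool.Agent.Helper90.G3 (er0)

/-- the density of the key inequality -/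
noncomputable def Ph (k : ℂ → ℝ) (δ b m ν : ℝ) (ζ y : ℂ) : ℝ :=
  ‖y - ((2 * m : ℝ) : ℂ)‖ ^ (-δ) * (1 - δ * b * k ((y - ((2 * m : ℝ) : ℂ)) / ζ)) -
    Real.exp (δ * m) * (‖y‖ ^ (-δ) * (1 - δ * b * k (y / ζ))) +
    ν * (δ * b * (‖y‖ ^ (-δ) * (k (y / ζ) - k y)))

variable {k : ℂ → ℝ} {K δ b m : ℝ}

theorem Mv_eq (ν : ℝ) (ζ y : ℂ) : Ph k δ b m ν ζ y =
    ‖y - ((2 * m : ℝ) : ℂ)‖ ^ (-δ) * (1 - δ * b * k ((y - ((2 * m : ℝ) : ℂ)) / ζ)) -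
    Real.exp (δ * m) * (‖y - 0‖ ^ (-δ) * (1 - δ * b * k ((y - 0) / ζ))) +
    ν * (‖y - 0‖ ^ (-δ) * (1 - δ * b * k ((y - 0) / 1)) -
      ‖y - 0‖ ^ (-δ) * (1 - δ * b * k ((y - 0) / ζ))) := by
  unfold Ph
  rw [sub_zero, div_one]
  ring

theorem Mv_lin {Q : Set ℂ} {f1 f2 f3 : ℂ → ℝ} (i1 : IntegrableOn f1 Q) (i2 : IntegrableOn f2 Q)
    (i3 : IntegrableOn f3 Q) (x ν : ℝ) :
    IntegrableOn (fun y => f1 y - x * f2 y + ν * (f3 y - f2 y)) Q ∧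
      ∫ y in Q, (f1 y - x * f2 y + ν * (f3 y - f2 y)) =
        (∫ y in Q, f1 y) - x * (∫ y in Q, f2 y) + ν * ((∫ y in Q, f3 y) - ∫ y in Q, f2 y) := by
  have j2 : IntegrableOn (fun y => x * f2 y) Q := i2.const_mul x
  have j12 : IntegrableOn (fun y => f1 y - x * f2 y) Q := i1.sub j2
  have j32 : IntegrableOn (fun y => f3 y - f2 y) Q := i3.sub i2
  have jn : IntegrableOn (fun y => ν * (f3 y - f2 y)) Q := j32.const_mul ν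
  refine ⟨j12.add jn, ?_⟩
  have e1 : ∫ y in Q, (f1 y - x * f2 y + ν * (f3 y - f2 y)) =
      (∫ y in Q, (f1 y - x * f2 y)) + ∫ y in Q, ν * (f3 y - f2 y) := integral_add j12 jn
  have e2 : ∫ y in Q, (f1 y - x * f2 y) = (∫ y in Q, f1 y) - ∫ y in Q, x * f2 y :=
    integral_sub i1 j2
  have e3 : ∫ y in Q, (f3 y - f2 y) = (∫ y in Q, f3 y) - ∫ y in Q, f2 y := integral_sub i3 i2
  rw [e1, e2, integral_const_mul, integral_const_mul, e3]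

theorem Mv_int (hk : Measurable k) (hK : ∀ w, |k w| ≤ K) (h0 : 0 < δ) (h1 : δ ≤ 1) {Q : Set ℂ}
    (hQ : MeasurableSet Q) (hv : volume Q < ⊤) (ν : ℝ) (ζ : ℂ) :
    IntegrableOn (Ph k δ b m ν ζ) Q ∧ ∫ y in Q, Ph k δ b m ν ζ y =
      J k δ b Q ((2 * m : ℝ) : ℂ) ζ - Real.exp (δ * m) * J k δ b Q 0 ζ +
        ν * (J k δ b Q 0 1 - J k δ b Q 0 ζ) := by
  have i1 := j_int (b := b) hk hK h0 h1 hQ hv ((2 * m : ℝ) : ℂ) ζ
  have i2 := j_int (b := b) hk hK h0 h1 hQ hv 0 ζ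
  have i3 := j_int (b := b) hk hK h0 h1 hQ hv 0 1
  have e : (Ph k δ b m ν ζ) = fun y : ℂ =>
      ‖y - ((2 * m : ℝ) : ℂ)‖ ^ (-δ) * (1 - δ * b * k ((y - ((2 * m : ℝ) : ℂ)) / ζ)) -
      Real.exp (δ * m) * (‖y - 0‖ ^ (-δ) * (1 - δ * b * k ((y - 0) / ζ))) +
      ν * (‖y - 0‖ ^ (-δ) * (1 - δ * b * k ((y - 0) / 1)) -
        ‖y - 0‖ ^ (-δ) * (1 - δ * b * k ((y - 0) / ζ))) := by
    funext y
    exact Mv_eq ν ζ y
  rw [e]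
  exact Mv_lin i1 i2 i3 _ _

theorem vh_key (hk : Measurable k) (hK : ∀ w, |k w| ≤ K) (h0 : 0 < δ) (h1 : δ ≤ 1) (hb : 0 ≤ b)
    (hb1 : K * b * δ ≤ 1) {B E : ℝ} (hB : 0 ≤ B)
    (hkey : ∀ ζ : ℂ, ζ ≠ 0 → ∃ ν : ℝ, 0 ≤ ν ∧ ν ≤ B ∧ ∃ H : ℂ → ℝ, Integrable H ∧
      (∀ y, 0 ≤ H y) ∧ (∀ᵐ y, Ph k δ b m ν ζ y ≤ H y) ∧ ∫ y, H y ≤ E)
    {Q : Set ℂ} (hQ : MeasurableSet Q) (hv : volume Q < ⊤) :
    Vh k δ b Q ((2 * m : ℝ) : ℂ) ≤ Real.exp (δ * m) * Vh k δ b Q 0 + E := by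
  refine le_of_forall_pos_le_add fun η hη => ?_
  have hex : 0 < Real.exp (δ * m) := Real.exp_pos _
  have hD : 0 < Real.exp (δ * m) + B := by linarith
  have hη' : 0 < η / (Real.exp (δ * m) + B) := div_pos hη hD
  have : Nonempty {ζ : ℂ // ζ ≠ 0} := ⟨⟨1, one_ne_zero⟩⟩
  obtain ⟨ζ, hζ⟩ := exists_lt_of_ciInf_lt
    (show (⨅ ζ : {ζ : ℂ // ζ ≠ 0}, J k δ b Q 0 ζ) <
      Vh k δ b Q 0 + η / (Real.exp (δ * m) + B) from lt_add_of_pos_right _ hη')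
  obtain ⟨ν, hν0, hνB, H, hH, hH0, hHle, hHE⟩ := hkey ζ.1 ζ.2
  obtain ⟨g1, g2⟩ := Mv_int (b := b) (m := m) hk hK h0 h1 hQ hv ν ζ.1
  have g3 : ∫ y in Q, Ph k δ b m ν ζ.1 y ≤ E := by
    calc ∫ y in Q, Ph k δ b m ν ζ.1 y ≤ ∫ y in Q, H y :=
          integral_mono_ae g1 hH.integrableOn (ae_restrict_of_ae hHle)
      _ ≤ ∫ y, H y := setIntegral_le_integral hH (Filter.Eventually.of_forall hH0)
      _ ≤ E := hHE
  rw [g2] at g3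
  have g4 := vh_le hK h0 hb hb1 Q ((2 * m : ℝ) : ℂ) ζ.2
  have g5 := vh_le hK h0 hb hb1 Q 0 (one_ne_zero (α := ℂ))
  have g6 := vh_le hK h0 hb hb1 Q 0 ζ.2
  have hζ' : J k δ b Q 0 ζ.1 ≤ Vh k δ b Q 0 + η / (Real.exp (δ * m) + B) := hζ.le
  have g7 : ν * (J k δ b Q 0 ζ.1 - J k δ b Q 0 1) ≤ B * (η / (Real.exp (δ * m) + B)) := by
    have k1 : J k δ b Q 0 ζ.1 - J k δ b Q 0 1 ≤ η / (Real.exp (δ * m) + B) := by linarith
    calc ν * (J k δ b Q 0 ζ.1 - J k δ b Q 0 1) ≤ ν * (η / (Real.exp (δ * m) + B)) :=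
          mul_le_mul_of_nonneg_left k1 hν0
      _ ≤ B * (η / (Real.exp (δ * m) + B)) := mul_le_mul_of_nonneg_right hνB hη'.le
  have g8 : Real.exp (δ * m) * J k δ b Q 0 ζ.1 ≤
      Real.exp (δ * m) * (Vh k δ b Q 0 + η / (Real.exp (δ * m) + B)) :=
    mul_le_mul_of_nonneg_left hζ' hex.le
  have g9 : (Real.exp (δ * m) + B) * (η / (Real.exp (δ * m) + B)) = η := by
    field_simp
  nlinarith

theorem Mv_er {c₀ s a : ℝ} (h0 : 0 < δ) (h1 : δ ≤ 1) (hm : 0 < m) (hs : 0 < s) (ha : 0 ≤ a)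
    (has : a ≤ s / (2 * m)) (hc : c₀ ≤ 1) :
    a ^ (2 - δ) * ((1 - c₀) * (δ * π * m * 2 ^ (-δ))) ≤ (1 - c₀) * er0 δ m s := by
  have hs2 : 0 < s / (2 * m) := by positivity
  have e1 : a ^ (2 - δ) ≤ (s / (2 * m)) ^ (2 - δ) := Real.rpow_le_rpow ha has (by linarith)
  have e2 : (s / (2 * m)) ^ (2 - δ) = (s / (2 * m)) ^ 2 * (s / (2 * m)) ^ (-δ) := by
    rw [← Real.rpow_natCast, ← Real.rpow_add hs2]
    congr 1
  have e3 : (s / m) ^ (-δ) = 2 ^ (-δ) * (s / (2 * m)) ^ (-δ) := by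
    rw [← Real.mul_rpow (by norm_num) hs2.le]
    congr 1
    field_simp
  have e4 : 0 ≤ (1 - c₀) * (δ * π * m * 2 ^ (-δ)) := by
    have := Real.pi_pos
    have h2 : (0:ℝ) < 2 ^ (-δ) := Real.rpow_pos_of_pos (by norm_num) _
    have h3 : 0 ≤ 1 - c₀ := by linarith
    positivity
  refine (mul_le_mul_of_nonneg_right e1 e4).trans (le_of_eq ?_)
  unfold er0
  rw [e2, e3]
  field_simp
  ring

theorem vh_gen (hk : Measurable k) (hK : ∀ w, |k w| ≤ K) (h0 : 0 < δ) (h1 : δ ≤ 1) (hb : 0 ≤ b)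
    (hb1 : K * b * δ ≤ 1) {c₀ : ℝ} (hc : c₀ ≤ 1) (hm : 0 < m)
    (h : ∀ Q : Set ℂ, MeasurableSet Q → volume Q < ⊤ →
      Vh k δ b Q ((2 * m : ℝ) : ℂ) ≤ Real.exp (δ * m) * Vh k δ b Q 0 +
        (1 - c₀) * (δ * π * m * 2 ^ (-δ)))
    {s : ℝ} (hs : 0 < s) {Q : Set ℂ} (hQ : MeasurableSet Q) (hv : volume Q < ⊤) {p p' : ℂ}
    (hp : ‖p' - p‖ ≤ s) :
    Vh k δ b Q p' ≤ Real.exp (δ * m) * Vh k δ b Q p + (1 - c₀) * er0 δ m s := by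
  by_cases hpp : p' = p
  · have g1 : 0 ≤ er0 δ m s := by
      unfold er0
      have := Real.pi_pos
      positivity
    have g2 : 0 ≤ (1 - c₀) * er0 δ m s := mul_nonneg (by linarith) g1
    have g3 := vh_nonneg hK h0 hb hb1 Q p
    have g4 : 1 ≤ Real.exp (δ * m) := Real.one_le_exp (by positivity)
    rw [hpp]
    nlinarith
  · have hm0 : ((2 * m : ℝ) : ℂ) ≠ 0 := by
      exact_mod_cast (by positivity : (2 * m : ℝ) ≠ 0)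
    obtain ⟨a, ha⟩ : ∃ a : ℂ, a = (p' - p) / ((2 * m : ℝ) : ℂ) := ⟨_, rfl⟩
    have ha0 : a ≠ 0 := by
      rw [ha]
      exact div_ne_zero (sub_ne_zero.2 hpp) hm0
    have e1 : p' = p + a * ((2 * m : ℝ) : ℂ) := by
      rw [ha, div_mul_cancel₀ _ hm0]
      ring
    have e2 : p = p + a * 0 := by ring
    obtain ⟨q1, q2⟩ := cov_fin ha0 p hQ hv
    have g1 := h _ q1 q2
    have g2 : Vh k δ b Q p' =
        ‖a‖ ^ (2 - δ) * Vh k δ b ((fun w : ℂ => p + a * w) ⁻¹' Q) ((2 * m : ℝ) : ℂ) := by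
      rw [e1]
      exact vh_scale ha0 hQ p _
    have g3 : Vh k δ b Q p = ‖a‖ ^ (2 - δ) * Vh k δ b ((fun w : ℂ => p + a * w) ⁻¹' Q) 0 := by
      conv_lhs => rw [e2]
      exact vh_scale ha0 hQ p 0
    have hna : ‖a‖ ≤ s / (2 * m) := by
      rw [ha, norm_div, Complex.norm_real, Real.norm_of_nonneg (by positivity)]
      exact div_le_div_of_nonneg_right hp (by positivity)
    have g4 := Mv_er (c₀ := c₀) h0 h1 hm hs (norm_nonneg a) hna hc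
    have g5 : 0 ≤ ‖a‖ ^ (2 - δ) := Real.rpow_nonneg (norm_nonneg _) _
    have g6 := mul_le_mul_of_nonneg_left g1 g5
    rw [g2, g3]
    nlinarith

end Pool.Agent.Helper89.G3
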