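import Pool.Agent.Helper89.G3.Defs

/-!
# G3-PTW: pointwise inequalities

`W = ‖y‖^(-δ)`, `W' = ‖y - m‖^(-δ)`, `X = Xl m y`, `W = W' e^(-δ X)`.
* `ptw_x` : `|y| ≤ |y - m| + m` and `log (1 + t) ≤ t`, in both directions.
* `ptw_one` : `W' - e^(δ m) W = W' (1 - e^(δ (m - X)))` and `1 - e^t ≤ -t`.
* `ptw_two` : `|W' - W| ≤ δ |X| (W + W')`, `e^(δ m) - 1 ≤ 2 δ m`.
* `ptw_k` : if `|y| ≥ 4 |ζ|` and `|y - m| ≥ 4 |ζ|` the difference is `0` (`far`); otherwise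
  `1 / |ζ| < 4 / |y|` or `1 / |ζ| < 4 / |y - m|`, and the difference is at most `L m / |ζ|`.
* `ptw_pos`, `ptw_neg` : `X = -(1/2) log (1 - q)`, `q = 2 m Re (1/y) - m² / |y|²`, `|q| ≤ 3 m / r ≤ 1/6`;
  `-log (1 - q) ≥ q` and `-log (1 - q) ≤ q / (1 - q) ≤ q + 2 q²`.
-/

set_option autoImplicit false

namespace Pool.Agent.Helper89.G3

open MeasureTheory Set
open scoped Real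

theorem ptw_x {m : ℝ} (hm : 0 < m) {y : ℂ} (hy : y ≠ 0) (hy' : y ≠ (m : ℂ)) :
    |Xl m y| ≤ m * (1 / ‖y‖ + 1 / ‖y - (m : ℂ)‖) := by
  sorry

theorem ptw_one {δ m : ℝ} {y : ℂ} (hy : y ≠ 0) (hy' : y ≠ (m : ℂ)) :
    ‖y - (m : ℂ)‖ ^ (-δ) - Real.exp (δ * m) * ‖y‖ ^ (-δ) ≤
      δ * (‖y - (m : ℂ)‖ ^ (-δ) * (Xl m y - m)) := by
  sorry

theorem ptw_w {δ m : ℝ} (h0 : 0 < δ) (hm : 0 < m) {y : ℂ} (hy : y ≠ 0) (hy' : y ≠ (m : ℂ)) :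
    |‖y - (m : ℂ)‖ ^ (-δ) - ‖y‖ ^ (-δ)| ≤ δ * m * Om δ m y := by
  sorry

theorem ptw_two {δ m : ℝ} (h0 : 0 < δ) (h1 : δ ≤ 1 / 4) (hm : 0 < m) (hm1 : m ≤ 1 / 4) {y : ℂ}
    (hy : y ≠ 0) (hy' : y ≠ (m : ℂ)) :
    |‖y - (m : ℂ)‖ ^ (-δ) - Real.exp (δ * m) * ‖y‖ ^ (-δ)| ≤ 2 * δ * m * Om δ m y := by
  sorry

theorem ptw_k {k : ℂ → ℝ} {L : ℝ} (hL : 0 ≤ L) (hl : ∀ w w' : ℂ, |k w - k w'| ≤ L * ‖w - w'‖)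
    (hf : ∀ w : ℂ, 4 ≤ ‖w‖ → k w = k 4) {m : ℝ} (hm : 0 < m) {ζ : ℂ} (hζ : ζ ≠ 0) {y : ℂ}
    (hy : y ≠ 0) (hy' : y ≠ (m : ℂ)) :
    |k ((y - m) / ζ) - k (y / ζ)| ≤ 4 * L * m * (1 / ‖y‖ + 1 / ‖y - (m : ℂ)‖) := by
  sorry

theorem ptw_pos {τ r m : ℝ} (hτ : 0 < τ) (hτ1 : τ ≤ 1) (hr : 0 < r) (hr1 : r ≤ 1) (hm : 0 < m)
    (hm1 : 18 * m ≤ τ * r ^ 2) {y : ℂ} (hy : r ≤ ‖y‖) (h : 1 + τ ≤ (1 / y).re) :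
    m * τ / 2 ≤ Xl m y - m := by
  sorry

theorem ptw_neg {τ r m : ℝ} (hτ : 0 < τ) (hτ1 : τ ≤ 1) (hr : 0 < r) (hr1 : r ≤ 1) (hm : 0 < m)
    (hm1 : 18 * m ≤ τ * r ^ 2) {y : ℂ} (hy : r ≤ ‖y‖) (h : (1 / y).re ≤ 1 - τ) :
    Xl m y - m ≤ -(m * τ / 2) := by
  sorry

end Pool.Agent.Helper89.G3
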