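import Pool.Agent.Helper89.G3.Mom

/-!
# G3-TMPL: the template, cut off

`cut w = max 0 (min 1 (4 - |w|))`, `kt = cut * kq - Cc (1 - cut)`, `Cc = 5000000`. `kt = kq` for `|w| ≤ 3`,
`kt = -Cc` for `|w| ≥ 4`, `kt ≤ kq` for `|w| ≤ 16` (there `kq ≥ -Cc`), `kt ≤ 20000` always.
Bounded and Lipschitz: products of bounded Lipschitz functions on the ball of radius 5.
-/

set_option autoImplicit false

namespace Pool.Agent.Helper89.G3

open MeasureTheory Set
open scoped Real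

/-- cut-off -/
noncomputable def cut (w : ℂ) : ℝ := max 0 (min 1 (4 - ‖w‖))

/-- the template -/
noncomputable def kt (w : ℂ) : ℝ := cut w * kq w - 5000000 * (1 - cut w)

theorem cut_nonneg (w : ℂ) : 0 ≤ cut w := le_max_left _ _

theorem cut_le_one (w : ℂ) : cut w ≤ 1 := max_le zero_le_one (min_le_left _ _)

theorem cut_near {w : ℂ} (h : ‖w‖ ≤ 3) : cut w = 1 := by
  unfold cut
  rw [min_eq_left (by linarith), max_eq_right zero_le_one]

theorem cut_far {w : ℂ} (h : 4 ≤ ‖w‖) : cut w = 0 := by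
  unfold cut
  rw [max_eq_left]
  exact (min_le_right _ _).trans (by linarith)

theorem cut_lip (w w' : ℂ) : |cut w - cut w'| ≤ ‖w - w'‖ := by
  unfold cut
  have h1 := abs_max_sub_max_le_abs (min 1 (4 - ‖w‖)) (min 1 (4 - ‖w'‖)) 0
  rw [max_comm _ (0 : ℝ), max_comm _ (0 : ℝ)] at h1
  refine h1.trans ?_
  have h2 := abs_min_sub_min_le_max 1 (4 - ‖w‖) 1 (4 - ‖w'‖)
  refine h2.trans ?_
  rw [sub_self, abs_zero, max_eq_right (abs_nonneg _)]
  have h3 : 4 - ‖w‖ - (4 - ‖w'‖) = -(‖w‖ - ‖w'‖) := by ring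
  rw [h3, abs_neg]
  exact abs_norm_sub_norm_le w w'

theorem kt_near {w : ℂ} (h : ‖w‖ ≤ 3) : kt w = kq w := by
  unfold kt
  rw [cut_near h]
  ring

theorem kt_far {w : ℂ} (h : 4 ≤ ‖w‖) : kt w = -5000000 := by
  unfold kt
  rw [cut_far h]
  ring

/-- bound of the polynomial -/
theorem kq_bd {w : ℂ} {r : ℝ} (hr : 0 ≤ r) (h : ‖w‖ ≤ r) :
    |kq w| ≤ 2 + 4 * r + 77 / 6 * r ^ 2 + 14 * r ^ 3 + 28 * r ^ 4 := by
  have hx : |w.re| ≤ r := (Complex.abs_re_le_norm w).trans h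
  have hsq : w.re ^ 2 + w.im ^ 2 ≤ r ^ 2 := by
    have h1 : ‖w‖ ^ 2 = w.re ^ 2 + w.im ^ 2 := by
      rw [← Complex.normSq_eq_norm_sq, Complex.normSq_apply]
      ring
    rw [← h1]
    exact pow_le_pow_left₀ (norm_nonneg _) h 2
  have h0 := sq_nonneg w.re
  have h0' := sq_nonneg w.im
  have h1 : |4 * w.re| ≤ 4 * r := by
    rw [abs_mul, abs_of_pos (by norm_num : (0:ℝ) < 4)]
    linarith
  have h2 : |-(25 / 6 * w.re ^ 2) + 77 / 6 * w.im ^ 2| ≤ 77 / 6 * r ^ 2 := by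
    rw [abs_le]
    constructor <;> linarith
  have h3 : |2 * w.re ^ 3 - 14 * w.re * w.im ^ 2| ≤ 14 * r ^ 3 := by
    have e : 2 * w.re ^ 3 - 14 * w.re * w.im ^ 2 = w.re * (2 * w.re ^ 2 - 14 * w.im ^ 2) := by ring
    have h4 : |2 * w.re ^ 2 - 14 * w.im ^ 2| ≤ 14 * r ^ 2 := by
      rw [abs_le]
      constructor <;> linarith
    rw [e, abs_mul]
    calc |w.re| * |2 * w.re ^ 2 - 14 * w.im ^ 2| ≤ r * (14 * r ^ 2) :=
          mul_le_mul hx h4 (abs_nonneg _) hr
      _ = 14 * r ^ 3 := by ring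
  have h4 : |-(12 / 5 * w.re ^ 4) + 168 / 5 * w.re ^ 2 * w.im ^ 2 - 28 * w.im ^ 4| ≤
      28 * r ^ 4 := by
    have h5 : (w.re ^ 2 + w.im ^ 2) ^ 2 ≤ r ^ 4 := by
      calc (w.re ^ 2 + w.im ^ 2) ^ 2 ≤ (r ^ 2) ^ 2 := pow_le_pow_left₀ (by positivity) hsq 2
        _ = r ^ 4 := by ring
    have h6 : 0 ≤ w.re ^ 2 * w.im ^ 2 := by positivity
    have h7 : 0 ≤ w.re ^ 4 := by positivity
    have h8 : 0 ≤ w.im ^ 4 := by positivity
    rw [abs_le]
    constructor <;> nlinarith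
  have e : kq w = -2 + 4 * w.re + (-(25 / 6 * w.re ^ 2) + 77 / 6 * w.im ^ 2) +
      (2 * w.re ^ 3 - 14 * w.re * w.im ^ 2) +
      (-(12 / 5 * w.re ^ 4) + 168 / 5 * w.re ^ 2 * w.im ^ 2 - 28 * w.im ^ 4) := by
    unfold kq
    ring
  rw [e]
  rw [abs_le] at h1 h2 h3 h4 ⊢
  constructor <;> linarith [h1.1, h1.2, h2.1, h2.2, h3.1, h3.2, h4.1, h4.2]

theorem kt_le {w : ℂ} (h : ‖w‖ ≤ 16) : kt w ≤ kq w := by
  have h1 := kq_bd (by norm_num) h
  rw [abs_le] at h1
  have h2 : 0 ≤ (1 - cut w) * (kq w + 5000000) :=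
    mul_nonneg (by linarith [cut_le_one w]) (by linarith [h1.1])
  unfold kt
  linarith

theorem kt_up (w : ℂ) : kt w ≤ 20000 := by
  rcases le_total ‖w‖ 4 with h | h
  · have h1 := kq_bd (by norm_num) h
    rw [abs_le] at h1
    have h2 : cut w * kq w ≤ 20000 := by
      have h3 : kq w ≤ 20000 := by linarith [h1.2]
      calc cut w * kq w ≤ cut w * 20000 := mul_le_mul_of_nonneg_left h3 (cut_nonneg w)
        _ ≤ 1 * 20000 := mul_le_mul_of_nonneg_right (cut_le_one w) (by norm_num)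
        _ = 20000 := by norm_num
    unfold kt
    linarith [cut_le_one w]
  · rw [kt_far h]
    norm_num

theorem kt_abs (w : ℂ) : |kt w| ≤ 5000000 := by
  rcases le_total ‖w‖ 4 with h | h
  · have h1 := kq_bd (by norm_num) h
    have h2 : |kq w| ≤ 5000000 := by linarith
    rw [abs_le] at h2
    have h3 := cut_nonneg w
    have h4 := cut_le_one w
    unfold kt
    rw [abs_le]
    constructor <;> nlinarith [h2.1, h2.2]
  · rw [kt_far h, abs_neg, abs_of_pos (by norm_num)]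

/-- bounded and Lipschitz on the ball of radius `5` -/
def BL (f : ℂ → ℝ) : Prop :=
  ∃ C L : ℝ, 0 ≤ C ∧ 0 ≤ L ∧ (∀ w : ℂ, ‖w‖ ≤ 5 → |f w| ≤ C) ∧
    ∀ w w' : ℂ, ‖w‖ ≤ 5 → ‖w'‖ ≤ 5 → |f w - f w'| ≤ L * ‖w - w'‖

theorem BL.const (a : ℝ) : BL fun _ => a :=
  ⟨|a|, 0, abs_nonneg _, le_rfl, fun _ _ => le_rfl, fun _ _ _ _ => by simp⟩

theorem BL.re : BL fun w => w.re :=
  ⟨5, 1, by norm_num, by norm_num, fun w hw => (Complex.abs_re_le_norm w).trans hw,
    fun w w' _ _ => by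
      rw [one_mul, ← Complex.sub_re]
      exact Complex.abs_re_le_norm _⟩

theorem BL.im : BL fun w => w.im :=
  ⟨5, 1, by norm_num, by norm_num, fun w hw => (Complex.abs_im_le_norm w).trans hw,
    fun w w' _ _ => by
      rw [one_mul, ← Complex.sub_im]
      exact Complex.abs_im_le_norm _⟩

theorem BL.add {f g : ℂ → ℝ} (hf : BL f) (hg : BL g) : BL fun w => f w + g w := by
  obtain ⟨C, L, hC, hL, h1, h2⟩ := hf
  obtain ⟨C', L', hC', hL', h1', h2'⟩ := hg
  refine ⟨C + C', L + L', by linarith, by linarith, fun w hw => ?_, fun w w' hw hw' => ?_⟩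
  · exact (abs_add_le _ _).trans (add_le_add (h1 w hw) (h1' w hw))
  · have e : f w + g w - (f w' + g w') = (f w - f w') + (g w - g w') := by ring
    rw [e, add_mul]
    exact (abs_add_le _ _).trans (add_le_add (h2 w w' hw hw') (h2' w w' hw hw'))

theorem BL.mul {f g : ℂ → ℝ} (hf : BL f) (hg : BL g) : BL fun w => f w * g w := by
  obtain ⟨C, L, hC, hL, h1, h2⟩ := hf
  obtain ⟨C', L', hC', hL', h1', h2'⟩ := hg
  refine ⟨C * C', C * L' + L * C', by positivity, by positivity, fun w hw => ?_,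
    fun w w' hw hw' => ?_⟩
  · rw [abs_mul]
    exact mul_le_mul (h1 w hw) (h1' w hw) (abs_nonneg _) hC
  · have e : f w * g w - f w' * g w' = f w * (g w - g w') + (f w - f w') * g w' := by ring
    rw [e, add_mul]
    refine (abs_add_le _ _).trans (add_le_add ?_ ?_)
    · rw [abs_mul, mul_assoc]
      exact mul_le_mul (h1 w hw) (h2' w w' hw hw') (abs_nonneg _) hC
    · rw [abs_mul]
      calc |f w - f w'| * |g w'| ≤ (L * ‖w - w'‖) * C' :=
            mul_le_mul (h2 w w' hw hw') (h1' w' hw') (abs_nonneg _) (by positivity)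
        _ = L * C' * ‖w - w'‖ := by ring

theorem BL.pow {f : ℂ → ℝ} (hf : BL f) (n : ℕ) : BL fun w => f w ^ n := by
  induction n with
  | zero => simpa using BL.const 1
  | succ n ih =>
    have := ih.mul hf
    simpa [pow_succ] using this

theorem BL.cut : BL cut :=
  ⟨1, 1, by norm_num, by norm_num, fun w _ => by
    rw [abs_of_nonneg (cut_nonneg w)]
    exact cut_le_one w, fun w w' _ _ => by
      rw [one_mul]
      exact cut_lip w w'⟩

theorem BL.kq : BL kq := by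
  have h := ((((((((BL.const (-2)).add ((BL.const 4).mul BL.re)).add
    ((BL.const (-(25 / 6))).mul (BL.re.pow 2))).add
    ((BL.const (77 / 6)).mul (BL.im.pow 2))).add
    ((BL.const 2).mul (BL.re.pow 3))).add
    ((BL.const (-14)).mul (BL.re.mul (BL.im.pow 2)))).add
    ((BL.const (-(12 / 5))).mul (BL.re.pow 4))).add
    ((BL.const (168 / 5)).mul ((BL.re.pow 2).mul (BL.im.pow 2)))).add
    ((BL.const (-28)).mul (BL.im.pow 4))
  have e : Pool.Agent.Helper89.G3.kq = fun w : ℂ => -2 + 4 * w.re + -(25 / 6) * w.re ^ 2 +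
      77 / 6 * w.im ^ 2 + 2 * w.re ^ 3 + -14 * (w.re * w.im ^ 2) + -(12 / 5) * w.re ^ 4 +
      168 / 5 * (w.re ^ 2 * w.im ^ 2) + -28 * w.im ^ 4 := by
    funext w
    unfold Pool.Agent.Helper89.G3.kq
    ring
  rw [e]
  exact h

theorem BL.kt : BL kt := by
  have h := (BL.cut.mul BL.kq).add ((BL.const (-5000000)).mul
    ((BL.const 1).add ((BL.const (-1)).mul BL.cut)))
  have e : Pool.Agent.Helper89.G3.kt = fun w : ℂ => Pool.Agent.Helper89.G3.cut w *
      Pool.Agent.Helper89.G3.kq w + -5000000 * (1 + -1 * Pool.Agent.Helper89.G3.cut w) := by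
    funext w
    unfold Pool.Agent.Helper89.G3.kt
    ring
  rw [e]
  exact h

theorem kt_lip : ∃ L : ℝ, 0 < L ∧ ∀ w w' : ℂ, |kt w - kt w'| ≤ L * ‖w - w'‖ := by
  obtain ⟨C, L, -, hL, -, h⟩ := BL.kt
  refine ⟨L + 10000000, by linarith, ?_⟩
  have hsub : ∀ w w' : ℂ, ‖w‖ ≤ ‖w'‖ → |kt w - kt w'| ≤ (L + 10000000) * ‖w - w'‖ := by
    intro w w' hww
    have hn := norm_nonneg (w - w')
    rcases le_total ‖w'‖ 5 with h5 | h5
    · have h1 := h w w' (hww.trans h5) h5
      nlinarith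
    · rcases le_total 4 ‖w‖ with h4 | h4
      · rw [kt_far h4, kt_far (h4.trans hww), sub_self, abs_zero]
        positivity
      · have h1 : 1 ≤ ‖w - w'‖ := by
          have h2 := norm_sub_norm_le w' w
          rw [norm_sub_rev] at h2
          linarith
        have h2 := kt_abs w
        have h3 := kt_abs w'
        have h6 : |kt w - kt w'| ≤ 10000000 := by
          refine (abs_sub _ _).trans ?_
          linarith
        nlinarith
  intro w w'
  rcases le_total ‖w‖ ‖w'‖ with h1 | h1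
  · exact hsub w w' h1
  · rw [abs_sub_comm, norm_sub_rev]
    exact hsub w' w h1

theorem kt_bl : ∃ K L : ℝ, 0 ≤ K ∧ 0 ≤ L ∧ (∀ w : ℂ, |kt w| ≤ K) ∧
    ∀ w w' : ℂ, |kt w - kt w'| ≤ L * ‖w - w'‖ := by
  obtain ⟨L, hL, h⟩ := kt_lip
  exact ⟨5000000, L, by norm_num, hL.le, kt_abs, h⟩

theorem cut_cont : Continuous cut := by
  unfold cut
  fun_prop

theorem kt_cont : Continuous kt := by
  unfold kt
  exact (cut_cont.mul kq_cont).sub (continuous_const.mul (continuous_const.sub cut_cont))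

end Pool.Agent.Helper89.G3
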