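import Pool.Agent.Helper89.G3.Tmpl
import Pool.Agent.Helper89.G3.Cov

/-!
# G3-TPEX: the template has all properties

With `η = 1/(2ζ)`, `cov` for `y = ζ w + m` and `y = ζ w` (and `(ball ...)` preimages):
`∫_Dk kt ((y - m)/ζ) = ‖ζ‖² ∫_{B(η (1 - 2m), ‖η‖)} kt` and `‖ζ‖² ‖η‖² = 1/4`.
`tp_bad` : if `‖η‖ ≤ 8`, `kt ≤ kq` on the disk, so the integral is at most `(π/4) Gq η.re η.im ‖η‖² ≤ -(π/4) r²`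
(`gq_diag`); if `‖η‖ > 8`, `∫_B kt ≤ -5000000 |B| + 5020000 · 16 π` (`kt_far`, `kt_up`), `|B| ≥ 64 π`. The value at
`ζ = 1/2` (`η = 1`) is `(π/4) Gq 1 0 1 = 0`.
`tp_good` : the disks are in `|w| ≤ 3`, the difference is `(π/4) (Gq (x(1-2m)) (y(1-2m)) R - Gq x y R)`,
`R = x² + y²`, a polynomial multiple of `m` : `= (π/4) 2 m H(x, y, m)`, `H` continuous, `H(1,0,0) = 1/3`.
-/

set_option autoImplicit false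

namespace Pool.Agent.Helper89.G3

open MeasureTheory Set
open scoped Real

theorem tp_cov {ζ : ℂ} (hζ : ζ ≠ 0) (m : ℝ) (f : ℂ → ℝ) :
    ∫ y in Dk, f ((y - m) / ζ) =
      ‖ζ‖ ^ 2 * ∫ w in Metric.ball (1 / (2 * ζ) * (1 - 2 * m)) ‖1 / (2 * ζ)‖, f w := by
  sorry

theorem tp_good : ∃ r m₁ c₂ : ℝ, 0 < r ∧ r ≤ 1 / 2 ∧ 0 < m₁ ∧ 0 < c₂ ∧
    ∀ ζ : ℂ, ζ ≠ 0 → ‖1 / (2 * ζ) - 1‖ ≤ r → ∀ m : ℝ, 0 < m → m ≤ m₁ →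
      c₂ * m ≤ (∫ y in Dk, kt ((y - m) / ζ)) - ∫ y in Dk, kt (y / ζ) := by
  sorry

theorem tp_bad {r : ℝ} (hr : 0 < r) : ∃ c₁ : ℝ, 0 < c₁ ∧
    ∀ ζ : ℂ, ζ ≠ 0 → r ≤ ‖1 / (2 * ζ) - 1‖ →
      (∫ y in Dk, kt (y / ζ)) + c₁ ≤ ∫ y in Dk, kt (2 * y) := by
  sorry

theorem exists_tp : ∃ (k : ℂ → ℝ) (K L c₁ c₂ r m₁ : ℝ), 0 ≤ K ∧ 0 ≤ L ∧ 0 < c₁ ∧ 0 < c₂ ∧
    0 < r ∧ r ≤ 1 / 2 ∧ 0 < m₁ ∧ Tp k K L c₁ c₂ r m₁ := by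
  sorry

end Pool.Agent.Helper89.G3
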